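import Pool.Agent.U605.ST.Main

/-! The expected dimension in every degree: many points of one multiplicity `m`, a tail of small
multiplicities and simple points. -/

namespace Pool.Agent.U605.ST

open Finset Pool.Agent.TH176.Nag Pool.Agent.TH603.Sur Pool.Agent.TH760.EN Pool.Agent.TH641.UM
open Pool.Agent.H932R3 Pool.Agent.TH335.EN

/-- the tail is small with respect to `n` points of multiplicity `m`; `B` bounds its multiplicities and
`Q` is the sum of the numbers `w (w + 1)` -/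
def Small (n m : ℕ) (B : ℕ → Prop) (Q : ℝ) : Prop :=
  (n ≤ 2 * m ∧ (∀ b, B b → 8 * (b : ℝ) + 17 ≤ 9 * √(n : ℝ)) ∧ 4 * Q ≤ (√(n : ℝ) - 5) * m) ∨
  (n ≤ 4 * m ∧ (∀ b, B b → 4 * (b : ℝ) + 6 ≤ 3 * √(n : ℝ)) ∧
    4 * Q ≤ 3 * ((√(n : ℝ) - 5) * m))

theorem numA {s m T : ℝ} (hs : 6 ≤ s) (hm : s * s ≤ 2 * m) (h1 : T ≤ (9 * s - 17) / 8)
    (h2 : (9 * s - 25) / 8 ≤ T) : (s - 5) * m ≤ T * (m - 1 - 2 * T) := by
  obtain ⟨t, ht⟩ : ∃ t : ℝ, t = (9 * s - 25) / 8 := ⟨_, rfl⟩
  have hm36 : 6 * s ≤ 2 * m := by nlinarith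
  have h5 : 0 ≤ (T - t) * (m - 1 - 2 * T - 2 * t) := by
    apply mul_nonneg
    · linarith
    · have : 0 ≤ (s - 6) * (s - 3) := mul_nonneg (by linarith) (by linarith)
      nlinarith
  have k2 : 0 ≤ (s + 15) * (2 * m - s * s) := mul_nonneg (by linarith) (by linarith)
  have k3 : 0 ≤ (s - 49 / 10) * (s - 103 / 10) ^ 2 := mul_nonneg (by linarith) (sq_nonneg _)
  have k4 : (s - 5) * m ≤ t * (m - 1 - 2 * t) := by
    rw [ht]
    nlinarith
  nlinarith

theorem numB {s m T : ℝ} (hs : 6 ≤ s) (hm : s * s ≤ 4 * m) (h1 : T ≤ (3 * s - 6) / 4)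
    (h2 : (3 * s - 10) / 4 ≤ T) : 3 * ((s - 5) * m) ≤ T * (4 * m - 2 * T) := by
  obtain ⟨t, ht⟩ : ∃ t : ℝ, t = (3 * s - 10) / 4 := ⟨_, rfl⟩
  have hm36 : 6 * s ≤ 4 * m := by nlinarith
  have h5 : 0 ≤ (T - t) * (4 * m - 2 * T - 2 * t) := by
    apply mul_nonneg <;> linarith
  have k4 : 3 * ((s - 5) * m) ≤ t * (4 * m - 2 * t) := by
    rw [ht]
    nlinarith
  nlinarith

section tail
variable {κ : Type} [Fintype κ] {w : κ → ℕ}

theorem two_cond : 2 * (Pool.Agent.TH603.Sur.cond w : ℝ) = ∑ j, (w j : ℝ) * (w j + 1) := by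
  unfold Pool.Agent.TH603.Sur.cond
  push_cast
  rw [mul_sum]
  refine sum_congr rfl fun j _ => ?_
  rw [Nat.cast_choose_two]
  push_cast
  ring

theorem sq_le : ((∑ j, w j ^ 2 : ℕ) : ℝ) ≤ ∑ j, (w j : ℝ) * (w j + 1) := by
  push_cast
  refine sum_le_sum fun j _ => ?_
  have : (0 : ℝ) ≤ w j := Nat.cast_nonneg _
  nlinarith

/-- emptiness and independence in every degree for a tail -/
def ES (n m : ℕ) {κ : Type} [Fintype κ] (w : κ → ℕ) : Prop := ∀ d : ℕ,
    ((d + 2).choose 2 ≤ n * (m + 1).choose 2 + Pool.Agent.TH603.Sur.cond w →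
      Emp (Sum.elim (fun _ : Fin n => m) w) (TZ d)) ∧
    (n * (m + 1).choose 2 + Pool.Agent.TH603.Sur.cond w ≤ (d + 2).choose 2 →
      Sur (Sum.elim (fun _ : Fin n => m) w) (TZ d))

/-- **Emptiness and independence in every degree**, explicit conditions -/
theorem ES_small {n m : ℕ} (hn : 36 ≤ n)
    (hw : Small n m (fun b => ∃ j, w j = b) (∑ j, (w j : ℝ) * (w j + 1))) : ES n m w := by
  intro d
  have hnR : (36 : ℝ) ≤ n := by exact_mod_cast hn
  obtain ⟨s, hs⟩ : ∃ s : ℝ, s = √(n : ℝ) := ⟨_, rfl⟩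
  have hss : s * s = n := by rw [hs]; exact Real.mul_self_sqrt (by linarith)
  have hs6 : 6 ≤ s := by
    rw [hs]
    exact Real.le_sqrt_of_sq_le (by linarith)
  have h2c := two_cond (w := w)
  have hsq := sq_le (w := w)
  rcases hw with ⟨hm, hB, hQ⟩ | ⟨hm, hB, hQ⟩
  · have hmR : (n : ℝ) ≤ 2 * m := by exact_mod_cast hm
    have hm1 : 1 ≤ m := by omega
    have hm0 : (0 : ℝ) < m := by linarith
    have hδ : (n : ℝ) / (4 * m) ≤ 1 / 2 := by
      rw [div_le_iff₀ (by linarith)]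
      linarith
    obtain ⟨T, hT⟩ : ∃ T : ℕ, T = ⌊(9 * s - 17) / 8⌋₊ := ⟨_, rfl⟩
    have hT1 : (T : ℝ) ≤ (9 * s - 17) / 8 := by
      rw [hT]; exact Nat.floor_le (by linarith)
    have hT2 : (9 * s - 17) / 8 < T + 1 := by
      rw [hT]; exact Nat.lt_floor_add_one _
    have hwT : ∀ j, w j ≤ T := by
      intro j
      rw [hT]
      apply Nat.le_floor
      have := hB (w j) ⟨j, rfl⟩
      rw [← hs] at this
      linarith
    rw [← hs] at hQ
    have hsm : 0 < (s - 5) * m := by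
      apply mul_pos <;> linarith
    obtain ⟨ρ, hρ⟩ : ∃ ρ : ℝ, ρ = 2 * T / (3 * m) := ⟨_, rfl⟩
    have hρm : 3 * (ρ * m) = 2 * T := by
      rw [hρ]
      field_simp
    have hρ0 : 0 ≤ ρ := by rw [hρ]; positivity
    have hHm : 2 * ((m / 2 : ℕ) : ℝ) ≤ m := by
      have : 2 * (m / 2) ≤ m := Nat.mul_div_le m 2
      exact_mod_cast this
    have hHm' : (m : ℝ) ≤ 2 * ((m / 2 : ℕ) : ℝ) + 1 := by
      have : m ≤ 2 * (m / 2) + 1 := by omega
      exact_mod_cast this
    have hρH : 2 * (ρ * ((m / 2 : ℕ) : ℝ)) ≤ ρ * m := by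
      have := mul_le_mul_of_nonneg_left hHm hρ0
      linarith
    have hrect : Sur w (Rect T (m / 2)) := by
      refine Sur_rect hwT hwT ?_
      have h1 : 2 * ((∑ j, w j ^ 2 : ℕ) : ℝ) + T * T ≤ T * ((m / 2 : ℕ) : ℝ) := by
        have h2 : (T : ℝ) * (m - 1) ≤ T * (2 * ((m / 2 : ℕ) : ℝ)) :=
          mul_le_mul_of_nonneg_left (by linarith) (Nat.cast_nonneg _)
        -- `(s - 5) m ≤ T (m - 1 - 2 T)`
        have h3 : (s - 5) * m ≤ T * (m - 1 - 2 * T) := numA hs6 (by rw [hss]; exact hmR)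
          (by linarith) (by linarith)
        nlinarith
      exact_mod_cast h1
    refine main_ES hn hm1 ?_ hrect (by omega) hρ0 ?_ ?_ ?_ d
    · rw [← hs]; linarith
    · rw [← hs]; linarith
    · rw [← hs]; linarith
    · rw [← hs, h2c]; linarith
  · have hmR : (n : ℝ) ≤ 4 * m := by exact_mod_cast hm
    have hm1 : 1 ≤ m := by omega
    have hm0 : (0 : ℝ) < m := by linarith
    have hδ : (n : ℝ) / (4 * m) ≤ 1 := by
      rw [div_le_iff₀ (by linarith)]
      linarith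
    obtain ⟨T, hT⟩ : ∃ T : ℕ, T = ⌊(3 * s - 6) / 4⌋₊ := ⟨_, rfl⟩
    have hT1 : (T : ℝ) ≤ (3 * s - 6) / 4 := by
      rw [hT]; exact Nat.floor_le (by linarith)
    have hT2 : (3 * s - 6) / 4 < T + 1 := by
      rw [hT]; exact Nat.lt_floor_add_one _
    have hwT : ∀ j, w j ≤ T := by
      intro j
      rw [hT]
      apply Nat.le_floor
      have := hB (w j) ⟨j, rfl⟩
      rw [← hs] at this
      linarith
    rw [← hs] at hQ
    have hsm : 0 < (s - 5) * m := by
      apply mul_pos <;> linarith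
    have hrect : Sur w (Rect T (2 * m)) := by
      refine Sur_rect hwT hwT ?_
      have h1 : 2 * ((∑ j, w j ^ 2 : ℕ) : ℝ) + T * T ≤ T * (2 * m) := by
        -- `3 (s - 5) m ≤ T (4 m - 2 T)`
        have h3 : 3 * ((s - 5) * m) ≤ T * (4 * m - 2 * T) := numB hs6 (by rw [hss]; exact hmR)
          (by linarith) (by linarith)
        nlinarith
      exact_mod_cast h1
    refine main_ES (ρ := 0) hn hm1 ?_ hrect le_rfl le_rfl ?_ ?_ ?_ d
    · rw [← hs]; linarith
    · rw [← hs]; linarith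
    · rw [← hs]; linarith
    · rw [← hs, h2c]; linarith

end tail

/-- independence and simple points -/
theorem Sur_ones {ι : Type} [Fintype ι] {w : ι → ℕ} {S : Finset (ℤ × ℤ)} {p : ℕ}
    (h : Sur w (↑S : Set (ℤ × ℤ))) (hp : Pool.Agent.TH603.Sur.cond w + p ≤ S.card) :
    Sur (Sum.elim w (fun _ : Fin p => 1)) (↑S : Set (ℤ × ℤ)) := by
  classical
  obtain ⟨T, hT, hcard, hE⟩ := h
  have hTS : T ⊆ S := by exact_mod_cast hT
  obtain ⟨U, hU, hUc⟩ := exists_subset_card_eq (s := S \ T) (n := p) (by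
    rw [card_sdiff_of_subset hTS, hcard]; omega)
  subst hUc
  refine ⟨T ∪ U, ?_, ?_, Emp_union hE U⟩
  · have : T ∪ U ⊆ S := union_subset hTS (hU.trans sdiff_subset)
    exact_mod_cast this
  · rw [card_union_of_disjoint, hcard, cond_elim, cond_const (Fintype.card_fin _) (fun _ => rfl)]
    · simp
    · exact disjoint_of_subset_right hU disjoint_sdiff

theorem cond_emb {ι κ : Type} [Fintype ι] [Fintype κ] {w : ι → ℕ} {v : κ → ℕ}
    (g : ι → κ) (hg : Function.Injective g) (hw : ∀ i, v (g i) = w i)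
    (h0 : ∀ j, j ∉ Set.range g → v j = 0) :
    Pool.Agent.TH603.Sur.cond w = Pool.Agent.TH603.Sur.cond v := by
  classical
  unfold Pool.Agent.TH603.Sur.cond
  have e1 : ∑ i, (w i + 1).choose 2 = ∑ i, (v (g i) + 1).choose 2 :=
    sum_congr rfl fun i _ => by rw [hw i]
  rw [e1, ← sum_image (f := fun j => (v j + 1).choose 2) (s := univ) (g := g) (fun i _ j _ h => hg h)]
  refine sum_subset (subset_univ _) fun j _ hj => ?_
  have : v j = 0 := h0 j (by
    rintro ⟨i, rfl⟩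
    exact hj (mem_image_of_mem _ (mem_univ i)))
  rw [this]
  rfl

/-- points of multiplicity zero may be added -/
theorem Sur_emb {ι κ : Type} [Fintype ι] [Fintype κ] {w : ι → ℕ} {v : κ → ℕ} {S : Set (ℤ × ℤ)}
    (g : ι → κ) (hg : Function.Injective g) (hw : ∀ i, v (g i) = w i)
    (h0 : ∀ j, j ∉ Set.range g → v j = 0) (h : Sur w S) : Sur v S := by
  obtain ⟨T, h1, h2, h3⟩ := h
  exact ⟨T, h1, by rw [h2, cond_emb g hg hw h0], Emp_emb g hg (fun i => (hw i).ge) h3⟩

/-- **The expected dimension in every degree**, from the statement for the tail -/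
theorem expDim_of_ES {N : ℕ} (v : Fin N → ℕ) {n m : ℕ} (hm : 2 ≤ m)
    (hv : (univ.filter fun i => v i = m).card = n)
    (hES : ES n m fun i : {i : Fin N // 2 ≤ v i ∧ v i ≠ m} => v i.1) :
    ∃ F : MvPolynomial (Fin N × Fin 2) ℚ, F ≠ 0 ∧ ∀ {L : Type} [Field L] [CharZero L]
      (P : Fin N → Fin 2 → L), MvPolynomial.aeval (fun ij : Fin N × Fin 2 => P ij.1 ij.2) F ≠ 0 →
      ∀ d, ExpDim L v P d := by
  classical
  -- the tail
  let κ := {i : Fin N // 2 ≤ v i ∧ v i ≠ m}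
  let w : κ → ℕ := fun i => v i.1
  have hES' : ES n m w := hES
  clear hES
  -- the embedding
  let M := {i : Fin N // v i = m}
  let O := {i : Fin N // v i = 1}
  have hMcard : Fintype.card M = n := by
    rw [← hv, Fintype.card_subtype]
  obtain ⟨p, hp⟩ : ∃ p, p = Fintype.card O := ⟨_, rfl⟩
  let eM : Fin n ≃ M := (Fintype.equivFinOfCardEq hMcard).symm
  let eO : Fin p ≃ O := (Fintype.equivFinOfCardEq hp.symm).symm
  let g : (Fin n ⊕ κ) ⊕ Fin p → Fin N :=
    Sum.elim (Sum.elim (fun i => (eM i).1) (fun j => j.1)) (fun i => (eO i).1)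
  let u : (Fin n ⊕ κ) ⊕ Fin p → ℕ := Sum.elim (Sum.elim (fun _ => m) w) (fun _ => 1)
  have hgu : ∀ i, v (g i) = u i := by
    rintro ((i | i) | i)
    · exact (eM i).2
    · rfl
    · exact (eO i).2
  have hginj : Function.Injective g := by
    rintro ((i | i) | i) ((j | j) | j) hij
    · have : eM i = eM j := Subtype.ext hij
      rw [eM.injective this]
    · exfalso
      have h1 := j.2.2
      apply h1
      have : (eM i).1 = j.1 := hij
      rw [← this]; exact (eM i).2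
    · exfalso
      have : (eM i).1 = (eO j).1 := hij
      have h1 := (eM i).2
      have h2 := (eO j).2
      rw [this, h2] at h1
      omega
    · exfalso
      have h1 := i.2.2
      apply h1
      have : i.1 = (eM j).1 := hij
      rw [this]; exact (eM j).2
    · have : i = j := Subtype.ext hij
      rw [this]
    · exfalso
      have h1 := i.2.1
      have : i.1 = (eO j).1 := hij
      rw [this, (eO j).2] at h1
      omega
    · exfalso
      have : (eO i).1 = (eM j).1 := hij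
      have h1 := (eO i).2
      have h2 := (eM j).2
      rw [this, h2] at h1
      omega
    · exfalso
      have h1 := j.2.1
      have : (eO i).1 = j.1 := hij
      rw [← this, (eO i).2] at h1
      omega
    · have : eO i = eO j := Subtype.ext hij
      rw [eO.injective this]
  have hg0 : ∀ j, j ∉ Set.range g → v j = 0 := by
    intro j hj
    by_contra h0
    apply hj
    rcases eq_or_ne (v j) m with h1 | h1
    · exact ⟨Sum.inl (Sum.inl (eM.symm ⟨j, h1⟩)), by simp [g]⟩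
    rcases eq_or_ne (v j) 1 with h2 | h2
    · exact ⟨Sum.inr (eO.symm ⟨j, h2⟩), by simp [g]⟩
    exact ⟨Sum.inl (Sum.inr ⟨j, by omega, h1⟩), rfl⟩
  have hcu : Pool.Agent.TH603.Sur.cond u = Pool.Agent.TH603.Sur.cond v :=
    cond_emb g hginj hgu hg0
  have hcu' : Pool.Agent.TH603.Sur.cond u =
      (n * (m + 1).choose 2 + Pool.Agent.TH603.Sur.cond w) + p := by
    rw [cond_elim, cond_vec, cond_const (Fintype.card_fin _) (fun _ => rfl)]
    simp
  refine expDim_of_sign (fun d hd => ?_) (fun d hd => ?_)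
  · rw [← hcu, hcu'] at hd
    refine Emp_emb g hginj (fun i => (hgu i).ge) ?_
    rcases le_total ((d + 2).choose 2) (n * (m + 1).choose 2 + Pool.Agent.TH603.Sur.cond w) with h | h
    · exact Emp_emb (fun i : Fin n ⊕ κ => Sum.inl i) Sum.inl_injective (fun i => by simp [u])
        ((hES' d).1 h)
    · exact Emp_ones ((hES' d).2 h) (by rw [cond_vec]; exact hd)
  · rw [← hcu, hcu'] at hd
    refine Sur_emb g hginj hgu hg0 ?_
    have h1 := (hES' d).2 (by omega)
    rw [← coe_TF] at h1 ⊢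
    exact Sur_ones h1 (by rw [card_TF, cond_vec]; exact hd)

/-- **The expected dimension in every degree**, explicit conditions -/
theorem expDim_tail {N : ℕ} (v : Fin N → ℕ) {n m : ℕ} (hn : 36 ≤ n)
    (hv : (univ.filter fun i => v i = m).card = n)
    (hw : Small n m (fun b => 2 ≤ b ∧ b ≠ m ∧ ∃ i, v i = b)
      (∑ i ∈ univ.filter (fun i => 2 ≤ v i ∧ v i ≠ m), (v i : ℝ) * (v i + 1))) :
    ∃ F : MvPolynomial (Fin N × Fin 2) ℚ, F ≠ 0 ∧ ∀ {L : Type} [Field L] [CharZero L]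
      (P : Fin N → Fin 2 → L), MvPolynomial.aeval (fun ij : Fin N × Fin 2 => P ij.1 ij.2) F ≠ 0 →
      ∀ d, ExpDim L v P d := by
  classical
  have hsum : ∑ j : {i : Fin N // 2 ≤ v i ∧ v i ≠ m}, (v j.1 : ℝ) * (v j.1 + 1) =
      ∑ i ∈ univ.filter (fun i => 2 ≤ v i ∧ v i ≠ m), (v i : ℝ) * (v i + 1) :=
    (sum_subtype (univ.filter fun i => 2 ≤ v i ∧ v i ≠ m) (p := fun i => 2 ≤ v i ∧ v i ≠ m)
      (by simp) (fun i => (v i : ℝ) * (v i + 1))).symm
  refine expDim_of_ES v ?_ hv (ES_small hn ?_)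
  · rcases hw with ⟨h0, -, -⟩ | ⟨h0, -, -⟩ <;> omega
  · rw [hsum]
    rcases hw with ⟨h0, h1, h2⟩ | ⟨h0, h1, h2⟩
    · exact Or.inl ⟨h0, fun b ⟨j, hj⟩ => h1 b ⟨hj ▸ j.2.1, hj ▸ j.2.2, j.1, hj⟩, h2⟩
    · exact Or.inr ⟨h0, fun b ⟨j, hj⟩ => h1 b ⟨hj ▸ j.2.1, hj ▸ j.2.2, j.1, hj⟩, h2⟩

end Pool.Agent.U605.ST
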