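import Pool.Agent.U605.ST.Packed
import Pool.Agent.H248R5.Gen
import Pool.Agent.H248R6.Dim

/-! The classes on the same side of `χ = 0`. -/

namespace Pool.Agent.U605.ST

open Finset

/-- smaller multiplicities on the side of independence, larger ones on the side of emptiness -/
theorem expDim_side {K : Type} [Field K] [CharZero K] {N : ℕ} {v w : Fin N → ℕ}
    {P : Fin N → Fin 2 → K} {d : ℕ} (h : Pool.Agent.H932R3.ExpDim K v P d)
    (hs : ((∀ i, w i ≤ v i) ∧ ∑ i, (v i + 1).choose 2 ≤ (d + 2).choose 2) ∨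
      ((∀ i, v i ≤ w i) ∧ (d + 2).choose 2 ≤ ∑ i, (v i + 1).choose 2)) :
    Pool.Agent.H932R3.ExpDim K w P d := by
  have h2 : Module.finrank K ↥(H248R5.forms v P d) =
      (d + 2).choose 2 - ∑ i, (v i + 1).choose 2 := h
  show Module.finrank K ↥(H248R5.forms w P d) = (d + 2).choose 2 - ∑ i, (w i + 1).choose 2
  rcases hs with ⟨hu, h3⟩ | ⟨hu, h3⟩
  · have h4 := H248R6.finrank_of_surj (H248R6.surj_mono hu
      (H248R5.surj_of_ind (w := v) (P := P) (e := d) (by omega)))
    omega
  · have hfin : Module.Finite K ↥(H248R5.forms v P d) := by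
      have h0 : Module.Finite K ↥(MvPolynomial.homogeneousSubmodule (Fin 3) K d) :=
        Module.Finite.iff_fg.2 (MvPolynomial.homogeneousSubmodule_fg _ _ d)
      exact Submodule.finiteDimensional_of_le (S₂ := MvPolynomial.homogeneousSubmodule (Fin 3) K d)
        inf_le_left
    have h4 : Module.finrank K ↥(H248R5.forms w P d) ≤
        Module.finrank K ↥(H248R5.forms v P d) := by
      refine Submodule.finrank_mono (inf_le_inf_left _ ?_)
      intro G hG
      exact (iInf_mono fun i => Ideal.pow_le_pow_right (hu i)) hG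
    have h5 : ∑ i, (v i + 1).choose 2 ≤ ∑ i, (w i + 1).choose 2 :=
      Finset.sum_le_sum fun i _ => Nat.choose_le_choose 2 (Nat.succ_le_succ (hu i))
    omega

end Pool.Agent.U605.ST
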