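import Pool.Agent.U605.ST.Final

/-! The expected dimension in every degree: the general form with an explicit rectangle. -/

namespace Pool.Agent.U605.ST

open Finset Pool.Agent.TH176.Nag Pool.Agent.TH603.Sur Pool.Agent.TH760.EN Pool.Agent.TH641.UM
open Pool.Agent.H932R3 Pool.Agent.TH335.EN

/-- the room beside the main block -/
noncomputable def room (n m : ℕ) : ℝ := (3 * √(n : ℝ) - 5 - (n : ℝ) / (4 * m)) / 4

/-- the rectangle `T × H` fits beside the main block -/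
def Fits (n m T H : ℕ) : Prop :=
  (H ≤ 2 * m ∧ (T : ℝ) ≤ room n m) ∨ room n m * H ≤ (2 * room n m - T) * m

theorem ES_rect {κ : Type} [Fintype κ] {w : κ → ℕ} {n m T H : ℕ} (hn : 36 ≤ n)
    (hm : (n : ℝ) ≤ 4 * (√(n : ℝ) - 5) * m) (hw : Sur w (Rect T H)) (hfit : Fits n m T H)
    (hQ : ∑ j, (w j : ℝ) * (w j + 1) ≤ (√(n : ℝ) - 5) * m) : ES n m w := by
  intro d
  have hnR : (36 : ℝ) ≤ n := by exact_mod_cast hn
  obtain ⟨s, hs⟩ : ∃ s : ℝ, s = √(n : ℝ) := ⟨_, rfl⟩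
  have hss : s * s = n := by rw [hs]; exact Real.mul_self_sqrt (by linarith)
  have hs6 : 6 ≤ s := by
    rw [hs]
    exact Real.le_sqrt_of_sq_le (by linarith)
  rw [← hs] at hm
  have hm1 : 1 ≤ m := by
    by_contra hcon
    have h0 : m = 0 := by omega
    subst h0
    simp only [Nat.cast_zero, mul_zero] at hm
    linarith
  have hm0 : (0 : ℝ) < m := by exact_mod_cast hm1
  have hδ : (n : ℝ) / (4 * m) ≤ s - 5 := by
    rw [div_le_iff₀ (by linarith)]
    linarith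
  have h2c := two_cond (w := w)
  have hX : 4 * room n m + 5 + (n : ℝ) / (4 * m) = 3 * s := by
    unfold room
    rw [← hs]
    ring
  have hX0 : 0 < room n m := by linarith
  rcases hfit with ⟨hH, hT⟩ | hH
  · refine main_ES (ρ := 0) hn hm1 ?_ hw hH le_rfl ?_ ?_ ?_ d
    · rw [← hs]; linarith
    · rw [← hs]; linarith
    · rw [← hs]; linarith
    · rw [h2c]; exact hQ
  · have hH2 : H ≤ 2 * m := by
      have h1 : room n m * H ≤ room n m * (2 * m) := by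
        refine hH.trans ?_
        have : (0 : ℝ) ≤ T * m := by positivity
        linarith
      have h2 := le_of_mul_le_mul_left h1 hX0
      exact_mod_cast h2
    have e1 : room n m / m * m = room n m := div_mul_cancel₀ _ hm0.ne'
    have e2 : room n m / m * H ≤ 2 * room n m - T := by
      rw [div_mul_eq_mul_div, div_le_iff₀ hm0]
      exact hH
    refine main_ES (ρ := room n m / m) hn hm1 ?_ hw hH2 (by positivity) ?_ ?_ ?_ d
    · rw [← hs]; linarith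
    · rw [← hs, mul_assoc, e1]; linarith
    · rw [← hs, mul_assoc 4 (room n m / m) (m : ℝ), e1]; linarith
    · rw [h2c]; exact hQ

/-- **The expected dimension in every degree**, the general form -/
theorem expDim_packed {N : ℕ} (v : Fin N → ℕ) {n m T H : ℕ} (hn : 36 ≤ n)
    (hm : (n : ℝ) ≤ 4 * (√(n : ℝ) - 5) * m)
    (hv : (univ.filter fun i => v i = m).card = n)
    (hT : ∀ i ∈ univ.filter (fun i => 2 ≤ v i ∧ v i ≠ m), v i ≤ T)
    (hH : 2 * ∑ i ∈ univ.filter (fun i => 2 ≤ v i ∧ v i ≠ m), v i ^ 2 + T ^ 2 ≤ T * H)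
    (hfit : Fits n m T H)
    (hQ : ∑ i ∈ univ.filter (fun i => 2 ≤ v i ∧ v i ≠ m), (v i : ℝ) * (v i + 1) ≤
      (√(n : ℝ) - 5) * m) :
    ∃ F : MvPolynomial (Fin N × Fin 2) ℚ, F ≠ 0 ∧ ∀ {L : Type} [Field L] [CharZero L]
      (P : Fin N → Fin 2 → L), MvPolynomial.aeval (fun ij : Fin N × Fin 2 => P ij.1 ij.2) F ≠ 0 →
      ∀ d, ExpDim L v P d := by
  classical
  have hsum : ∑ j : {i : Fin N // 2 ≤ v i ∧ v i ≠ m}, (v j.1 : ℝ) * (v j.1 + 1) =
      ∑ i ∈ univ.filter (fun i => 2 ≤ v i ∧ v i ≠ m), (v i : ℝ) * (v i + 1) :=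
    (sum_subtype (univ.filter fun i => 2 ≤ v i ∧ v i ≠ m) (p := fun i => 2 ≤ v i ∧ v i ≠ m)
      (by simp) (fun i => (v i : ℝ) * (v i + 1))).symm
  have hsum2 : ∑ j : {i : Fin N // 2 ≤ v i ∧ v i ≠ m}, v j.1 ^ 2 =
      ∑ i ∈ univ.filter (fun i => 2 ≤ v i ∧ v i ≠ m), v i ^ 2 :=
    (sum_subtype (univ.filter fun i => 2 ≤ v i ∧ v i ≠ m) (p := fun i => 2 ≤ v i ∧ v i ≠ m)
      (by simp) (fun i => v i ^ 2)).symm
  have hw : Sur (fun i : {i : Fin N // 2 ≤ v i ∧ v i ≠ m} => v i.1) (Rect T H) := by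
    have hT' : ∀ j : {i : Fin N // 2 ≤ v i ∧ v i ≠ m}, v j.1 ≤ T :=
      fun j => hT j.1 (mem_filter.2 ⟨mem_univ _, j.2⟩)
    refine Sur_rect hT' hT' ?_
    rw [hsum2, ← sq]
    exact hH
  refine expDim_of_ES v ?_ hv (ES_rect hn hm hw hfit (by rw [hsum]; exact hQ))
  by_contra hcon
  have hm1 : (m : ℝ) ≤ 1 := by
    have : m ≤ 1 := by omega
    exact_mod_cast this
  have hnR : (36 : ℝ) ≤ n := by exact_mod_cast hn
  have hss : √(n : ℝ) * √(n : ℝ) = n := Real.mul_self_sqrt (by linarith)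
  have hs6 : 6 ≤ √(n : ℝ) := Real.le_sqrt_of_sq_le (by linarith)
  have h1 : 4 * (√(n : ℝ) - 5) * m ≤ 4 * (√(n : ℝ) - 5) * 1 :=
    mul_le_mul_of_nonneg_left hm1 (by linarith)
  nlinarith

end Pool.Agent.U605.ST
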