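import Pool.Agent.U605.ST.Packed
import Pool.Agent.R355.CanDeg2
import Pool.Agent.TH167.SH.Conv
import Pool.Agent.TH167.SH.Defs

set_option autoImplicit false

/-!
# Curves with equal multiplicities and a packed tail
-/

namespace Pool.Agent.U605.ST

open MvPolynomial Pool.Agent.TH167 Pool.Agent.TH167.SHDefs

/-- a curve with multiplicities at least `v`, where the systems with multiplicities `v` have the
expected dimension -/
theorem chi_pos {K : Type} [Field K] {h : ℕ} {P : Fin h → Fin 2 → K} {v w : Fin h → ℕ} {d : ℕ}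
    {G : MvPolynomial (Fin 3) K} (hv : Pool.Agent.H932R3.ExpDim K v P d) (hG : Curve P G d w)
    (hvw : ∀ i, v i ≤ w i) : ∑ i, (v i + 1).choose 2 < (d + 2).choose 2 := by
  have h2 : Module.finrank K ↥(sys P d v) =
      (d + 2).choose 2 - ∑ i, (v i + 1).choose 2 := hv
  have hfin : Module.Finite K ↥(sys P d v) := by
    have h0 : Module.Finite K ↥(MvPolynomial.homogeneousSubmodule (Fin 3) K d) :=
      Module.Finite.iff_fg.2 (MvPolynomial.homogeneousSubmodule_fg _ _ d)
    exact Submodule.finiteDimensional_of_le (S₂ := MvPolynomial.homogeneousSubmodule (Fin 3) K d)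
      inf_le_left
  have hmem : G ∈ sys P d v := by
    refine Submodule.mem_inf.2 ⟨hG.homogeneous, ?_⟩
    rw [Submodule.restrictScalars_mem]
    refine (Submodule.mem_iInf _).2 fun i => ?_
    exact Ideal.pow_le_pow_right (hvw i) (hG.mult i).1
  have hpos : 0 < Module.finrank K ↥(sys P d v) := by
    rw [Module.finrank_pos_iff_exists_ne_zero]
    exact ⟨⟨G, hmem⟩, fun h0 => hG.irreducible.ne_zero (congrArg Subtype.val h0)⟩
  omega

/-- the same in terms of intersection numbers -/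
theorem inter_le {h : ℕ} {w : Fin h → ℕ} {d : ℕ}
    (hχ : ∑ i, (w i + 1).choose 2 < (d + 2).choose 2) : interK d w ≤ inter d w d w := by
  have h1 : ∀ m : ℕ, ((m + 1).choose 2 : ℤ) * 2 = (m : ℤ) ^ 2 + m := by
    intro m
    have h2 := Nat.triangle_succ m
    have h3 : (m + 1) * m / 2 * 2 = (m + 1) * m :=
      Nat.div_mul_cancel (by rw [mul_comm]; exact (Nat.even_mul_succ_self m).two_dvd)
    rw [Nat.choose_two_right, Nat.add_sub_cancel]
    have h4 : (((m + 1) * m / 2 * 2 : ℕ) : ℤ) = (((m + 1) * m : ℕ) : ℤ) := by rw [h3]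
    push_cast at h4 ⊢
    rw [h4]
    ring
  have h2 : ((∑ i, (w i + 1).choose 2 : ℕ) : ℤ) + 1 ≤ ((d + 1 + 1).choose 2 : ℕ) := by
    exact_mod_cast hχ
  push_cast at h2
  have h3 := h1 (d + 1)
  have h4 : (∑ i, ((w i + 1).choose 2 : ℤ)) * 2 = ∑ i, ((w i : ℤ) ^ 2 + w i) := by
    rw [Finset.sum_mul]
    exact Finset.sum_congr rfl fun i _ => h1 (w i)
  rw [Finset.sum_add_distrib] at h4
  have h5 : ∑ i, (w i : ℤ) * w i = ∑ i, (w i : ℤ) ^ 2 :=
    Finset.sum_congr rfl fun i _ => by ring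
  unfold interK inter
  rw [h5]
  push_cast at h3
  nlinarith

/-- no class of a `(-1)`-curve has many equal multiplicities and a small tail -/
theorem not_minus_one {h : ℕ} {w : Fin h → ℕ} {d n M : ℕ} (hn : 36 ≤ n) (hM : 0 < M)
    (hcard : (Finset.univ.filter fun i => w i = M).card = n)
    (hsum : ∑ i ∈ Finset.univ.filter (fun i => 2 ≤ w i ∧ w i ≠ M), (w i : ℝ) * (w i + 1) ≤
      √(n : ℝ) * M) (h1 : inter d w d w = -1) (h2 : interK d w = -1) : False := by
  have hnR : (36 : ℝ) ≤ n := by exact_mod_cast hn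
  have hMR : (1 : ℝ) ≤ M := by exact_mod_cast hM
  have hsq : √(n : ℝ) ≤ n := by
    rw [Real.sqrt_le_left (by linarith)]
    nlinarith
  -- the sum of the multiplicities
  have hS1 : (n : ℝ) * M ≤ ∑ i, (w i : ℝ) := by
    have h3 : ∑ i ∈ Finset.univ.filter (fun i => w i = M), (w i : ℝ) ≤ ∑ i, (w i : ℝ) :=
      Finset.sum_le_sum_of_subset_of_nonneg (Finset.filter_subset _ _)
        fun i _ _ => Nat.cast_nonneg _
    have h4 : ∑ i ∈ Finset.univ.filter (fun i => w i = M), (w i : ℝ) = (n : ℝ) * M := by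
      rw [Finset.sum_congr rfl fun i hi => by rw [(Finset.mem_filter.1 hi).2], Finset.sum_const,
        hcard, nsmul_eq_mul]
    linarith
  have hS2 : ∑ i, ((w i : ℝ) ^ 2 - w i) ≤ (n : ℝ) * (M ^ 2 - M) + √(n : ℝ) * M := by
    have h3 : ∀ i, ((w i : ℝ) ^ 2 - w i) ≤ (if w i = M then ((M : ℝ) ^ 2 - M) else 0) +
        (if 2 ≤ w i ∧ w i ≠ M then (w i : ℝ) * (w i + 1) else 0) := by
      intro i
      by_cases hi : w i = M
      · rw [if_pos hi, if_neg (by tauto), hi]
        simp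
      · rw [if_neg hi]
        by_cases hi2 : 2 ≤ w i
        · rw [if_pos ⟨hi2, hi⟩]
          have : (0 : ℝ) ≤ w i := Nat.cast_nonneg _
          nlinarith
        · rw [if_neg (by tauto)]
          have h4 : w i = 0 ∨ w i = 1 := by omega
          rcases h4 with h4 | h4 <;> rw [h4] <;> norm_num
    have h4 := Finset.sum_le_sum fun i (_ : i ∈ Finset.univ) => h3 i
    rw [Finset.sum_add_distrib, ← Finset.sum_filter, ← Finset.sum_filter, Finset.sum_const,
      hcard, nsmul_eq_mul] at h4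
    linarith
  have e1 : (d : ℝ) ^ 2 - ∑ i, (w i : ℝ) ^ 2 = -1 := by
    have h3 : ((inter d w d w : ℤ) : ℝ) = ((-1 : ℤ) : ℝ) := by rw [h1]
    unfold inter at h3
    push_cast at h3
    have h4 : ∑ i, (w i : ℝ) * w i = ∑ i, (w i : ℝ) ^ 2 :=
      Finset.sum_congr rfl fun i _ => by ring
    rw [h4] at h3
    linarith
  have e2 : 3 * (d : ℝ) - ∑ i, (w i : ℝ) = 1 := by
    have h3 : ((interK d w : ℤ) : ℝ) = ((-1 : ℤ) : ℝ) := by rw [h2]
    unfold interK at h3
    push_cast at h3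
    linarith
  rw [Finset.sum_sub_distrib] at hS2
  have hd : (n : ℝ) * M / 3 ≤ d := by linarith
  have hnM : (36 : ℝ) ≤ n * M := by nlinarith
  have h5 : (d : ℝ) ^ 2 - 3 * d + 2 ≤ (n : ℝ) * (M ^ 2 - M) + n * M := by nlinarith
  have h6 : ((n : ℝ) * M / 3) ^ 2 - 3 * (n * M / 3) ≤ (d : ℝ) ^ 2 - 3 * d := by nlinarith
  have h7 : 4 * ((n : ℝ) * M ^ 2) ≤ ((n : ℝ) * M / 3) ^ 2 := by
    have h8 : (0 : ℝ) ≤ n * M ^ 2 := by positivity
    nlinarith
  have h9 : (n : ℝ) * M ≤ n * M ^ 2 := by nlinarith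
  nlinarith

end Pool.Agent.U605.ST
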