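import Pool.Agent.U605.ST.Packed
import Pool.Agent.H248R5.Tay

set_option autoImplicit false

/-!
# The restriction to an exceptional curve has maximal rank
-/

namespace Pool.Agent.U605.ST

open MvPolynomial Pool.Agent.H248R5

/-- the restriction to the exceptional curve over `p`: the part of degree `m` of the local equation -/
noncomputable def rho (p : Fin 2 → ℂ) (m : ℕ) :
    MvPolynomial (Fin 3) ℂ →ₗ[ℂ] MvPolynomial (Fin 2) ℂ :=
  (homogeneousComponent m).comp (tau p).toLinearMap

theorem finrank_bin (m : ℕ) :
    Module.finrank ℂ ↥(homogeneousSubmodule (Fin 2) ℂ m) ≤ m + 1 := by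
  classical
  let b : Fin (m + 1) → MvPolynomial (Fin 2) ℂ := fun i => X 0 ^ (i : ℕ) * X 1 ^ (m - i)
  have hle : homogeneousSubmodule (Fin 2) ℂ m ≤ Submodule.span ℂ (Set.range b) := by
    intro F hF
    rw [mem_homogeneousSubmodule] at hF
    rw [F.as_sum]
    refine Submodule.sum_mem _ fun s hs => ?_
    have h0 : s.degree = m := by
      by_contra hcon
      exact (mem_support_iff.1 hs) (hF.coeff_eq_zero hcon)
    have h01 : s 0 + s 1 = m := by
      rw [Finsupp.degree_eq_sum, Fin.sum_univ_two] at h0
      exact h0
    have h2 : monomial s (coeff s F) = coeff s F • b ⟨s 0, by omega⟩ := by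
      have h3 : m - s 0 = s 1 := by omega
      rw [monomial_eq, smul_eq_C_mul]
      simp only [b, h3]
      rw [Finsupp.prod_fintype _ _ (fun i => pow_zero _), Fin.prod_univ_two]
    rw [h2]
    exact Submodule.smul_mem _ _ (Submodule.subset_span ⟨_, rfl⟩)
  have hfin : Module.Finite ℂ ↥(Submodule.span ℂ (Set.range b)) :=
    Module.Finite.iff_fg.2 (Submodule.fg_span (Set.finite_range b))
  have h4 := finrank_range_le_card (R := ℂ) b
  rw [Fintype.card_fin] at h4
  exact (Submodule.finrank_mono hle).trans h4

theorem maxrank {h : ℕ} {m : Fin h → ℕ} {k : Fin h} {P : Fin h → Fin 2 → ℂ} {d : ℕ}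
    (h1 : Pool.Agent.H932R3.ExpDim ℂ m P d)
    (h2 : Pool.Agent.H932R3.ExpDim ℂ (Function.update m k (m k + 1)) P d) :
    (∀ F ∈ forms m P d, rho (P k) (m k) F = 0 → F = 0) ∨
    (∀ G : MvPolynomial (Fin 2) ℂ, G.IsHomogeneous (m k) →
      ∃ F ∈ forms m P d, rho (P k) (m k) F = G) := by
  classical
  have e1 : Module.finrank ℂ ↥(forms m P d) =
      (d + 2).choose 2 - ∑ i, (m i + 1).choose 2 := h1
  have e2 : Module.finrank ℂ ↥(forms (Function.update m k (m k + 1)) P d) =
      (d + 2).choose 2 - ∑ i, (Function.update m k (m k + 1) i + 1).choose 2 := h2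
  have e3 : ∑ i, (Function.update m k (m k + 1) i + 1).choose 2 =
      ∑ i, (m i + 1).choose 2 + (m k + 1) := by
    rw [← Finset.add_sum_erase _ _ (Finset.mem_univ k),
      ← Finset.add_sum_erase _ (fun i => (m i + 1).choose 2) (Finset.mem_univ k),
      Function.update_self]
    have h3 : ∑ i ∈ Finset.univ.erase k, (Function.update m k (m k + 1) i + 1).choose 2 =
        ∑ i ∈ Finset.univ.erase k, (m i + 1).choose 2 :=
      Finset.sum_congr rfl fun i hi => by rw [Function.update_of_ne (Finset.ne_of_mem_erase hi)]
    have h4 : (m k + 1 + 1).choose 2 = (m k + 1) + (m k + 1).choose 2 := by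
      rw [Nat.choose_succ_succ' (m k + 1) 1, Nat.choose_one_right]
    rw [h3, h4]
    ring
  -- the kernel
  have hker : ∀ F ∈ forms m P d, rho (P k) (m k) F = 0 →
      F ∈ forms (Function.update m k (m k + 1)) P d := by
    intro F hF h0
    obtain ⟨a1, a2⟩ := mem_forms.1 hF
    refine mem_forms.2 ⟨a1, fun i => ?_⟩
    by_cases hi : i = k
    · subst hi
      rw [Function.update_self, mem_pow_idealOfVars_iff']
      intro s hs
      rcases Nat.lt_succ_iff_lt_or_eq.1 hs with h3 | h3
      · exact (mem_pow_idealOfVars_iff' _ _).1 (a2 i) s h3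
      · have h4 := congrArg (coeff s) h0
        unfold rho at h4
        simp only [LinearMap.comp_apply, AlgHom.toLinearMap_apply, coeff_homogeneousComponent,
          coeff_zero] at h4
        rwa [if_pos h3] at h4
    · rw [Function.update_of_ne hi]
      exact a2 i
  have hle : forms (Function.update m k (m k + 1)) P d ≤ forms m P d := by
    intro F hF
    obtain ⟨a1, a2⟩ := mem_forms.1 hF
    refine mem_forms.2 ⟨a1, fun i => ?_⟩
    by_cases hi : i = k
    · subst hi
      have := a2 i
      rw [Function.update_self] at this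
      exact Ideal.pow_le_pow_right (Nat.le_succ _) this
    · have := a2 i
      rwa [Function.update_of_ne hi] at this
  have hfin : Module.Finite ℂ ↥(forms m P d) := by
    have h0 : Module.Finite ℂ ↥(MvPolynomial.homogeneousSubmodule (Fin 3) ℂ d) :=
      Module.Finite.iff_fg.2 (MvPolynomial.homogeneousSubmodule_fg _ _ d)
    exact Submodule.finiteDimensional_of_le (S₂ := MvPolynomial.homogeneousSubmodule (Fin 3) ℂ d)
      inf_le_left
  by_cases hc : ∑ i, (m i + 1).choose 2 + (m k + 1) ≤ (d + 2).choose 2
  · right
    -- surjective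
    have hker2 : Module.finrank ℂ ↥(LinearMap.ker ((rho (P k) (m k)).domRestrict (forms m P d))) ≤
        Module.finrank ℂ ↥(forms (Function.update m k (m k + 1)) P d) := by
      have hfin2 : Module.Finite ℂ ↥(forms (Function.update m k (m k + 1)) P d) :=
        Submodule.finiteDimensional_of_le hle
      have h5 : Submodule.map (forms m P d).subtype
          (LinearMap.ker ((rho (P k) (m k)).domRestrict (forms m P d))) ≤
          forms (Function.update m k (m k + 1)) P d := by
        rintro _ ⟨⟨F, hF⟩, hF2, rfl⟩
        exact hker F hF hF2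
      rw [← LinearEquiv.finrank_eq (Submodule.equivMapOfInjective (forms m P d).subtype
        (Submodule.injective_subtype _)
        (LinearMap.ker ((rho (P k) (m k)).domRestrict (forms m P d)))).symm]
      exact Submodule.finrank_mono h5
    have h6 := LinearMap.finrank_range_add_finrank_ker
      ((rho (P k) (m k)).domRestrict (forms m P d))
    have h7 : LinearMap.range ((rho (P k) (m k)).domRestrict (forms m P d)) ≤
        homogeneousSubmodule (Fin 2) ℂ (m k) := by
      rintro _ ⟨F, rfl⟩
      exact homogeneousComponent_isHomogeneous _ _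
    have hfin3 : Module.Finite ℂ ↥(homogeneousSubmodule (Fin 2) ℂ (m k)) :=
      Module.Finite.iff_fg.2 (homogeneousSubmodule_fg _ _ _)
    have h8 := finrank_bin (m k)
    have h9 : LinearMap.range ((rho (P k) (m k)).domRestrict (forms m P d)) =
        homogeneousSubmodule (Fin 2) ℂ (m k) :=
      Submodule.eq_of_le_of_finrank_le h7 (by omega)
    intro G hG
    have h10 : G ∈ LinearMap.range ((rho (P k) (m k)).domRestrict (forms m P d)) := by
      rw [h9]
      exact hG
    obtain ⟨⟨F, hF⟩, hFG⟩ := h10
    exact ⟨F, hF, hFG⟩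
  · left
    intro F hF h0
    have h5 := hker F hF h0
    have h6 : Module.finrank ℂ ↥(forms (Function.update m k (m k + 1)) P d) = 0 := by
      rw [e2, e3]
      omega
    have hfin2 : Module.Finite ℂ ↥(forms (Function.update m k (m k + 1)) P d) :=
      Submodule.finiteDimensional_of_le hle
    have h7 := Submodule.finrank_eq_zero.1 h6
    rw [h7] at h5
    exact (Submodule.mem_bot ℂ).1 h5

end Pool.Agent.U605.ST
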