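import Pool.Agent.U605.ST.Neg
import Pool.Agent.TH442.NF.Exc
import Pool.Agent.TH167.CL.Neg

set_option autoImplicit false

/-!
# The dimension of the system of an irreducible curve whose orbit contains a good class
-/

namespace Pool.Agent.U605.ST

open MvPolynomial Pool.Agent.W609 Pool.Agent.W609.CR Pool.Agent.TH167 Pool.Agent.TH167.SH
  Pool.Agent.H932R3 Pool.Agent.TH442.NF

/-- An irreducible curve which is not a `(-1)`-curve meets all `(-1)`-curves nonnegatively. -/
theorem enef_curve {K : Type} [Field K] [CharZero K] {s : ℕ} {P : Fin s → Fin 2 → K}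
    (hinj : Function.Injective P) {C : MvPolynomial (Fin 3) K} {d : ℕ} {w : Fin s → ℕ}
    (hC : Irreducible C) (hCd : C.IsHomogeneous d) (hCo : ∀ j, Ord (aff (P j)) (w j) C)
    (hne : ¬ (ip d w d w = -1 ∧ kk d w = 1)) : ENef P d w := by
  intro G e u hE
  by_cases hdvd : G ∣ C
  · exfalso
    obtain ⟨H, hH⟩ := hdvd
    have hu : IsUnit H := by
      rcases hC.isUnit_or_isUnit hH with h | h
      · exact absurd h hE.irr.not_isUnit
      · exact h
    obtain ⟨c, hc, rfl⟩ : ∃ c : K, c ≠ 0 ∧ H = MvPolynomial.C c := by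
      have h10 := MvPolynomial.isUnit_iff_eq_C_of_isReduced.1 hu
      obtain ⟨c, hc, rfl⟩ := h10
      exact ⟨c, hc.ne_zero, rfl⟩
    have hde : d = e := by
      have t1 : C.totalDegree = d := hCd.totalDegree hC.ne_zero
      have t2 : G.totalDegree = e := hE.hom.totalDegree hE.irr.ne_zero
      rw [hH, MvPolynomial.totalDegree_mul_of_isDomain hE.irr.ne_zero hu.ne_zero,
        MvPolynomial.totalDegree_C, t2] at t1
      omega
    have hwu : w = u := by
      funext j
      have t1 : Ord (aff (P j)) (u j + 0) (G * MvPolynomial.C c) := by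
        refine ord_mul (hE.ord j) ⟨van_zero _ _, fun h => ?_⟩
        rw [zero_add, van_one, MvPolynomial.eval_C] at h
        exact hc h
      rw [add_zero, ← hH] at t1
      exact ord_unique (hCo j) t1
    subst hde hwu
    exact hne ⟨self_iff.1 hE.self, can_iff.1 hE.can⟩
  · have hbez := bez hinj hE.irr hE.hom (fun j => (hE.ord j).1) hC.ne_zero hCd
      (fun j => (hCo j).1) hdvd
    have h3 : (∑ j, (w j : ℤ) * u j) = ((∑ j, u j * w j : ℕ) : ℤ) := by
      push_cast
      exact Finset.sum_congr rfl fun j _ => mul_comm _ _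
    unfold ip
    rw [h3, mul_comm (d : ℤ)]
    have : ((∑ j, u j * w j : ℕ) : ℤ) ≤ ((e * d : ℕ) : ℤ) := by exact_mod_cast hbez
    push_cast at this ⊢
    linarith

/-- The dimension, if the orbit contains a vector for which the expected dimension is known. -/
theorem orbit_dim {K : Type} [Field K] [CharZero K] {s : ℕ} {P : Fin s → Fin 2 → K}
    (hP : AlgebraicIndependent ℚ (fun ij : Fin s × Fin 2 => P ij.1 ij.2))
    {C : MvPolynomial (Fin 3) K} {d : ℕ} {w : Fin s → ℕ}
    (hC : Irreducible C) (hCd : C.IsHomogeneous d) (hCo : ∀ j, Ord (aff (P j)) (w j) C)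
    (hne : ¬ (ip d w d w = -1 ∧ kk d w = 1)) {e : ℕ} {u : Fin s → ℕ} (hb : Ch (cls d w) (cls e u))
    (hexp : ∀ P' : Fin s → Fin 2 → K,
      AlgebraicIndependent ℚ (fun ij : Fin s × Fin 2 => P' ij.1 ij.2) → ExpDim K u P' e) :
    ∑ i, (w i + 1).choose 2 < (d + 2).choose 2 ∧
      Module.finrank K ↥(Pool.Agent.H248R5.forms w P d) =
        (d + 2).choose 2 - ∑ i, (w i + 1).choose 2 := by
  obtain ⟨P1, d1, w1, hP1, -, h1, hchi, hd⟩ :=
    echain hP (enef_curve (inj_of_alg hP) hC hCd hCo hne) hb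
  have hmem : C ∈ VS (fun j => aff (P j)) w d := (mem_VS _ _ _ _).2 ⟨hCd, fun j => (hCo j).1⟩
  have hfin := vs_fin (fun j => aff (P j)) w d
  have hpos : 0 < Module.finrank K ↥(VS (fun j => aff (P j)) w d) :=
    Module.finrank_pos_iff.2 ⟨⟨C, hmem⟩, 0, fun h7 => hC.ne_zero (congrArg Subtype.val h7)⟩
  have he : d1 = e := by
    have h9 : (e : ℤ) = d1 := congrArg Prod.fst h1
    exact_mod_cast h9.symm
  have hu' : w1 = u := by
    funext l
    have h9 : (u l : ℤ) = w1 l := congrFun (congrArg Prod.snd h1) l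
    exact_mod_cast h9.symm
  subst he hu'
  have h2 : Module.finrank K ↥(Pool.Agent.H248R5.forms w1 P1 d1) =
      (d1 + 2).choose 2 - ∑ i, (w1 i + 1).choose 2 := hexp P1 hP1
  rw [← vs_eq_forms, hd] at h2
  rw [← vs_eq_forms, h2]
  have key : ∀ m : ℕ, ((m + 1).choose 2 : ℤ) * 2 = (m : ℤ) ^ 2 + m := by
    intro m
    have h3 : (m + 1).choose 2 * 2 = m * (m + 1) := by
      rw [Nat.choose_two_right, Nat.add_sub_cancel, Nat.div_mul_cancel
        (by rw [mul_comm]; exact (Nat.even_mul_succ_self m).two_dvd)]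
      ring
    have h4 : (((m + 1).choose 2 * 2 : ℕ) : ℤ) = ((m * (m + 1) : ℕ) : ℤ) := by rw [h3]
    push_cast at h4
    linarith
  have hx : ∀ (a : ℕ) (v : Fin s → ℕ), ((a + 2).choose 2 : ℤ) * 2 -
      (∑ i, ((v i + 1).choose 2 : ℤ)) * 2 = ip a v a v + kk a v + 2 := by
    intro a v
    have h3 := key (a + 1)
    have h4 : (∑ i, ((v i + 1).choose 2 : ℤ)) * 2 = ∑ i, ((v i : ℤ) ^ 2 + v i) := by
      rw [Finset.sum_mul]
      exact Finset.sum_congr rfl fun i _ => key (v i)
    rw [h4, Finset.sum_add_distrib]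
    unfold ip kk
    have h5 : ∑ i, (v i : ℤ) * v i = ∑ i, (v i : ℤ) ^ 2 :=
      Finset.sum_congr rfl fun i _ => by ring
    rw [h5]
    push_cast at h3 ⊢
    linarith
  obtain ⟨i1, i2⟩ := hb.inv
  have i1' : ip d1 w1 d1 w1 = ip d w d w := i1
  have i2' : kk d1 w1 = kk d w := i2
  have h6 := hx d w
  have h7 := hx d1 w1
  rw [i1', i2'] at h7
  have h8 : ((d1 + 2).choose 2 : ℤ) - ∑ i, ((w1 i + 1).choose 2 : ℤ) =
      ((d + 2).choose 2 : ℤ) - ∑ i, ((w i + 1).choose 2 : ℤ) := by linarith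
  have h9 : (((∑ i, (w1 i + 1).choose 2 : ℕ) : ℤ)) = ∑ i, ((w1 i + 1).choose 2 : ℤ) := by
    push_cast
    rfl
  have h10 : (((∑ i, (w i + 1).choose 2 : ℕ) : ℤ)) = ∑ i, ((w i + 1).choose 2 : ℤ) := by
    push_cast
    rfl
  rw [← h9, ← h10] at h8
  rw [h2] at hpos
  omega

end Pool.Agent.U605.ST
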