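import Pool.Agent.U605.ST.Packed

/-! A fixed tail with multiplicities below `3 √n / 2`, the multiplicity `M` of the main block large. -/

namespace Pool.Agent.U605.ST

open Finset Pool.Agent.TH176.Nag Pool.Agent.TH603.Sur Pool.Agent.TH760.EN Pool.Agent.TH641.UM
open Pool.Agent.H932R3 Pool.Agent.TH335.EN

/-- the expected dimension for a vector indexed by the main block, the tail and simple points -/
theorem expDim_equiv {κ : Type} [Fintype κ] {w : κ → ℕ} {n m p N : ℕ}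
    (e : (Fin n ⊕ κ) ⊕ Fin p ≃ Fin N) (v : Fin N → ℕ)
    (hv : ∀ i, v (e i) = Sum.elim (Sum.elim (fun _ : Fin n => m) w) (fun _ : Fin p => 1) i)
    (hES : ES n m w) :
    ∃ F : MvPolynomial (Fin N × Fin 2) ℚ, F ≠ 0 ∧ ∀ {L : Type} [Field L] [CharZero L]
      (P : Fin N → Fin 2 → L), MvPolynomial.aeval (fun ij : Fin N × Fin 2 => P ij.1 ij.2) F ≠ 0 →
      ∀ d, ExpDim L v P d := by
  have hcu : Pool.Agent.TH603.Sur.cond (Sum.elim (Sum.elim (fun _ : Fin n => m) w)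
      (fun _ : Fin p => 1)) = Pool.Agent.TH603.Sur.cond v := cond_equiv e hv
  have hcu' : Pool.Agent.TH603.Sur.cond (Sum.elim (Sum.elim (fun _ : Fin n => m) w)
      (fun _ : Fin p => 1)) = (n * (m + 1).choose 2 + Pool.Agent.TH603.Sur.cond w) + p := by
    rw [cond_elim, cond_vec, cond_const (Fintype.card_fin _) (fun _ => rfl)]
    simp
  refine expDim_of_sign (fun d hd => ?_) (fun d hd => ?_)
  · rw [← hcu, hcu'] at hd
    refine Emp_equiv e hv ?_
    rcases le_total ((d + 2).choose 2) (n * (m + 1).choose 2 + Pool.Agent.TH603.Sur.cond w) with h | h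
    · exact Emp_emb (fun i : Fin n ⊕ κ => Sum.inl i) Sum.inl_injective (fun i => by simp)
        ((hES d).1 h)
    · exact Emp_ones ((hES d).2 h) (by rw [cond_vec]; exact hd)
  · rw [← hcu, hcu'] at hd
    refine Sur_equiv e hv ?_
    have h1 := (hES d).2 (by omega)
    rw [← coe_TF] at h1 ⊢
    exact Sur_ones h1 (by rw [card_TF, cond_vec]; exact hd)

/-- **A fixed tail**: `M` is large against the tail, whose multiplicities are below `(3 √n - 5) / 2` -/
theorem ES_fixed {κ : Type} [Fintype κ] {w : κ → ℕ} {n m T : ℕ} (hn : 36 ≤ n) (hT : 1 ≤ T)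
    (hw : ∀ j, w j ≤ T) (hgap : 2 * (T : ℝ) + 5 < 3 * √(n : ℝ))
    (h1 : (n : ℝ) + 3 * √(n : ℝ) * (2 * (∑ j, (w j : ℝ) ^ 2) / T + T + 1) ≤
      (3 * √(n : ℝ) - 5 - 2 * T) * m)
    (h2 : (n : ℝ) / 4 + ∑ j, (w j : ℝ) * (w j + 1) ≤ (√(n : ℝ) - 5) * m) : ES n m w := by
  have hnR : (36 : ℝ) ≤ n := by exact_mod_cast hn
  obtain ⟨s, hs⟩ : ∃ s : ℝ, s = √(n : ℝ) := ⟨_, rfl⟩
  have hss : s * s = n := by rw [hs]; exact Real.mul_self_sqrt (by linarith)
  have hs6 : 6 ≤ s := by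
    rw [hs]
    exact Real.le_sqrt_of_sq_le (by linarith)
  rw [← hs] at h1 h2 hgap
  have hTR : (1 : ℝ) ≤ T := by exact_mod_cast hT
  have hT0 : (0 : ℝ) < T := by linarith
  obtain ⟨Q, hQ⟩ : ∃ Q : ℕ, Q = ∑ j, w j ^ 2 := ⟨_, rfl⟩
  have hQR : (Q : ℝ) = ∑ j, (w j : ℝ) ^ 2 := by rw [hQ]; push_cast; rfl
  have hQ0 : (0 : ℝ) ≤ Q := Nat.cast_nonneg _
  rw [← hQR] at h1
  have hU0 : 0 ≤ ∑ j, (w j : ℝ) * (w j + 1) := sum_nonneg fun j _ => by positivity
  obtain ⟨g, hg⟩ : ∃ g : ℝ, g = 3 * s - 5 - 2 * T := ⟨_, rfl⟩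
  have hg0 : 0 < g := by linarith
  rw [← hg] at h1
  have hfr : 0 ≤ 2 * (Q : ℝ) / T := by positivity
  have hm0 : (0 : ℝ) < m := by
    have h3 : 0 < g * m := by
      refine lt_of_lt_of_le ?_ h1
      positivity
    exact (pos_iff_pos_of_mul_pos h3).1 hg0
  have hm1 : 1 ≤ m := by exact_mod_cast hm0
  -- the height of the rectangle
  obtain ⟨H, hH⟩ : ∃ H : ℕ, H = ⌊2 * (Q : ℝ) / T + T + 1⌋₊ := ⟨_, rfl⟩
  have hH1 : (H : ℝ) ≤ 2 * (Q : ℝ) / T + T + 1 := by
    rw [hH]; exact Nat.floor_le (by positivity)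
  have hH2 : 2 * (Q : ℝ) / T + T ≤ H := by
    have := Nat.lt_floor_add_one (2 * (Q : ℝ) / T + T + 1)
    rw [← hH] at this
    linarith
  have hrect : Sur w (Rect T H) := by
    refine Sur_rect hw hw ?_
    have h3 : (T : ℝ) * (2 * (Q : ℝ) / T + T) ≤ T * H := mul_le_mul_of_nonneg_left hH2 hT0.le
    have h4 : (T : ℝ) * (2 * (Q : ℝ) / T + T) = 2 * Q + T * T := by
      field_simp
    rw [h4] at h3
    rw [← hQ]
    exact_mod_cast h3
  -- the room
  have hδ : (n : ℝ) / (4 * m) ≤ g / 4 := by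
    rw [div_le_iff₀ (by linarith)]
    have h3 : (0 : ℝ) ≤ 3 * s * (2 * (Q : ℝ) / T + T + 1) := by positivity
    nlinarith
  have hroom : room n m = (3 * s - 5 - (n : ℝ) / (4 * m)) / 4 := by
    unfold room
    rw [← hs]
  have hδ0 : 0 ≤ (n : ℝ) / (4 * m) := by positivity
  refine ES_rect hn ?_ hrect (Or.inr ?_) ?_
  · rw [← hs]; linarith
  · have h3 : room n m * H ≤ 3 * s / 4 * (2 * (Q : ℝ) / T + T + 1) := by
      have h4 : room n m ≤ 3 * s / 4 := by rw [hroom]; linarith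
      have h5 : 0 ≤ room n m := by rw [hroom]; linarith
      calc room n m * H ≤ room n m * (2 * (Q : ℝ) / T + T + 1) :=
            mul_le_mul_of_nonneg_left hH1 h5
        _ ≤ 3 * s / 4 * (2 * (Q : ℝ) / T + T + 1) := mul_le_mul_of_nonneg_right h4 (by positivity)
    have h6 : g / 4 * m ≤ (2 * room n m - T) * m := by
      refine mul_le_mul_of_nonneg_right ?_ hm0.le
      rw [hroom]
      linarith
    linarith
  · rw [← hs]; linarith

end Pool.Agent.U605.ST
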