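import Pool.Agent.TH603.Sur.Rows
import Pool.Agent.TH335.EN.EndS

/-! Independence for arbitrary small multiplicities on thin rectangles: greedy packing in slabs. -/

namespace Pool.Agent.U605.ST

open Finset Pool.Agent.TH176.Nag Pool.Agent.TH603.Sur Pool.Agent.TH335.EN

/-- the rectangle with `T` columns and `H` rows -/
def Rect (T H : ℕ) : Set (ℤ × ℤ) := {p | 0 ≤ p.1 ∧ p.1 < T ∧ 0 ≤ p.2 ∧ p.2 < H}

theorem cond_equiv {ι κ : Type} [Fintype ι] [Fintype κ] (e : ι ≃ κ) {w : ι → ℕ} {v : κ → ℕ}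
    (h : ∀ i, v (e i) = w i) : cond w = cond v := by
  unfold Pool.Agent.TH603.Sur.cond
  refine Fintype.sum_equiv e _ _ fun i => ?_
  rw [h i]

/-- reindexing -/
theorem Sur_equiv {ι κ : Type} [Fintype ι] [Fintype κ] (e : ι ≃ κ) {w : ι → ℕ} {v : κ → ℕ}
    {S : Set (ℤ × ℤ)} (h : ∀ i, v (e i) = w i) (hS : Sur w S) : Sur v S := by
  obtain ⟨T, h1, h2, h3⟩ := hS
  refine ⟨T, h1, ?_, Emp_emb e e.injective (fun i => (h i).ge) h3⟩
  rw [h2, cond_equiv e h]

theorem Emp_equiv {ι κ : Type} (e : ι ≃ κ) {w : ι → ℕ} {v : κ → ℕ}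
    {S : Set (ℤ × ℤ)} (h : ∀ i, v (e i) = w i) (hS : Emp w S) : Emp v S :=
  Emp_emb e e.injective (fun i => (h i).ge) hS

/-- one slab: the multiplicities have sum at most `T` and are at most `h` -/
theorem Sur_slab {κ : Type} [Fintype κ] {w : κ → ℕ} {T h : ℕ} (hT : ∑ j, w j ≤ T)
    (hh : ∀ j, w j ≤ h) : Sur w (Rect T h) := by
  refine Sur_rows w 0 ?_
  intro k j hj
  have h1 : k < h := by
    by_contra hcon
    have : ∑ i, (w i - k) = 0 := by
      refine sum_eq_zero fun i _ => ?_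
      have := hh i
      omega
    omega
  have h2 : ∑ i, (w i - k) ≤ ∑ i, w i := sum_le_sum fun i _ => Nat.sub_le _ _
  refine ⟨by simp, ?_, by simp, by simp only; omega⟩
  simp only [zero_add]
  omega

/-- stacking rectangles -/
theorem Sur_stack {ι κ : Type} [Fintype ι] [Fintype κ] {w : ι → ℕ} {v : κ → ℕ} {T h H : ℕ}
    (hh : h ≤ H) (h1 : Sur w (Rect T h)) (h2 : Sur v (Rect T (H - h))) :
    Sur (Sum.elim w v) (Rect T H) := by
  have h3 : Sur v {p : ℤ × ℤ | 0 ≤ p.1 ∧ p.1 < T ∧ (h : ℤ) ≤ p.2 ∧ p.2 < H} := by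
    refine h2.shift 0 (-h) ?_
    rintro ⟨x, y⟩ ⟨k1, k2, k3, k4⟩
    simp only at k1 k2 k3 k4
    refine ⟨by simpa using k1, by simpa using k2, ?_, ?_⟩
    · simp only; omega
    · simp only; omega
  refine (Sur_cut (fun p hp => ⟨hp.1, hp.2.2.1⟩) (fun p hp => ⟨hp.1, ?_⟩) 0 1 ?_ h1 h3).mono ?_
  · have := hp.2.2.1
    omega
  · rintro p ⟨-, -, -, k4⟩ p' ⟨-, -, k3', -⟩
    omega
  · rintro p (⟨k1, k2, k3, k4⟩ | ⟨k1, k2, k3, k4⟩)
    · exact ⟨k1, k2, k3, by omega⟩
    · exact ⟨k1, k2, by omega, k4⟩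

/-- **greedy packing** -/
theorem Sur_rect_aux {κ : Type} {w : κ → ℕ} {T : ℕ} : ∀ (N : ℕ) (A : Finset κ) (h H : ℕ),
    A.card ≤ N → (∀ a ∈ A, w a ≤ h) → (∀ a ∈ A, w a ≤ T) → 2 * ∑ a ∈ A, w a ^ 2 + T * h ≤ T * H →
    Sur (fun a : A => w a) (Rect T H) := by
  classical
  intro N
  induction N with
  | zero =>
    intro A h H hA _ _ _
    have hA0 : A = ∅ := card_eq_zero.1 (Nat.le_zero.1 hA)
    subst hA0
    refine Sur_rows _ 0 ?_
    intro k j hj
    simp at hj
  | succ N ih =>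
    intro A h H hA hh hT hH
    rcases A.eq_empty_or_nonempty with hA0 | hAne
    · subst hA0
      refine Sur_rows _ 0 ?_
      intro k j hj
      simp at hj
    rcases Nat.eq_zero_or_pos T with hT0 | hTpos
    · refine Sur_rows _ 0 ?_
      intro k j hj
      exfalso
      have : ∑ i : A, (w i - k) = 0 := by
        refine sum_eq_zero fun i _ => ?_
        have := hT i.1 i.2
        omega
      omega
    have hhH : h ≤ H := by
      have : T * h ≤ T * H := by omega
      exact Nat.le_of_mul_le_mul_left this hTpos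
    -- the maximal upper subset with sum at most `T`
    let F := A.powerset.filter fun B => (∀ b ∈ B, ∀ a ∈ A \ B, w a ≤ w b) ∧ ∑ b ∈ B, w b ≤ T
    have hF : F.Nonempty := ⟨∅, by simp [F]⟩
    obtain ⟨B, hBF, hBmax⟩ := F.exists_max_image Finset.card hF
    obtain ⟨hBA, hBup, hBT⟩ : B ⊆ A ∧ (∀ b ∈ B, ∀ a ∈ A \ B, w a ≤ w b) ∧ ∑ b ∈ B, w b ≤ T := by
      simpa [F] using hBF
    have hslab : Sur (fun a : B => w a) (Rect T h) := by
      refine Sur_slab ?_ fun a => hh a.1 (hBA a.2)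
      rw [Finset.sum_coe_sort B w]
      exact hBT
    rcases (A \ B).eq_empty_or_nonempty with hC0 | hCne
    · have hBA' : A = B := Subset.antisymm (sdiff_eq_empty_iff_subset.1 hC0) hBA
      subst hBA'
      refine hslab.mono ?_
      rintro p ⟨k1, k2, k3, k4⟩
      exact ⟨k1, k2, k3, by omega⟩
    · obtain ⟨c, hc, hcmax⟩ := (A \ B).exists_max_image w hCne
      have hcA : c ∈ A := (mem_sdiff.1 hc).1
      have hcB : c ∉ B := (mem_sdiff.1 hc).2
      -- the slab cannot be enlarged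
      have hbig : T < ∑ b ∈ B, w b + w c := by
        by_contra hcon
        have hmem : insert c B ∈ F := by
          simp only [F, mem_filter, mem_powerset]
          refine ⟨insert_subset hcA hBA, ?_, ?_⟩
          · intro b hb a ha
            have ha' : a ∈ A \ B := by
              rw [mem_sdiff] at ha ⊢
              exact ⟨ha.1, fun h => ha.2 (mem_insert_of_mem h)⟩
            rcases mem_insert.1 hb with rfl | hb
            · exact hcmax a ha'
            · exact hBup b hb a ha'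
          · rw [sum_insert hcB]
            omega
        have := hBmax _ hmem
        rw [card_insert_of_notMem hcB] at this
        omega
      have hBne : B.Nonempty := by
        by_contra hcon
        rw [not_nonempty_iff_eq_empty] at hcon
        rw [hcon, sum_empty] at hbig
        have := hT c hcA
        omega
      have hcard : (A \ B).card ≤ N := by
        have h1 := card_sdiff_of_subset hBA
        have h2 := hBne.card_pos
        omega
      -- the height of the rest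
      have hsq : T * w c ≤ 2 * ∑ b ∈ B, w b ^ 2 := by
        obtain ⟨b0, hb0⟩ := hBne
        have h1 : w c ^ 2 ≤ ∑ b ∈ B, w b ^ 2 := by
          refine le_trans ?_ (single_le_sum (f := fun b => w b ^ 2) (fun _ _ => Nat.zero_le _) hb0)
          exact Nat.pow_le_pow_left (hBup b0 hb0 c hc) 2
        have h2 : (∑ b ∈ B, w b) * w c ≤ ∑ b ∈ B, w b ^ 2 := by
          rw [sum_mul]
          refine sum_le_sum fun b hb => ?_
          rw [sq]
          exact Nat.mul_le_mul_left _ (hBup b hb c hc)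
        have h3 : T * w c ≤ (∑ b ∈ B, w b + w c) * w c := Nat.mul_le_mul_right _ hbig.le
        have h4 : (∑ b ∈ B, w b + w c) * w c = (∑ b ∈ B, w b) * w c + w c ^ 2 := by ring
        omega
      have hsum : ∑ a ∈ A, w a ^ 2 = ∑ a ∈ B, w a ^ 2 + ∑ a ∈ A \ B, w a ^ 2 := by
        rw [add_comm, sum_sdiff hBA]
      have hrest : Sur (fun a : (A \ B : Finset κ) => w a) (Rect T (H - h)) := by
        refine ih (A \ B) (w c) (H - h) hcard (fun a ha => hcmax a ha)
          (fun a ha => hT a (mem_sdiff.1 ha).1) ?_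
        have h1 : T * (H - h) = T * H - T * h := Nat.mul_sub _ _ _
        rw [h1]
        omega
      have hst := Sur_stack hhH hslab hrest
      let g : B ⊕ (A \ B : Finset κ) → A :=
        Sum.elim (fun b => ⟨b.1, hBA b.2⟩) (fun a => ⟨a.1, (mem_sdiff.1 a.2).1⟩)
      have hg : Function.Bijective g := by
        constructor
        · rintro (⟨x, hx⟩ | ⟨x, hx⟩) (⟨y, hy⟩ | ⟨y, hy⟩) hxy
          · simp only [g, Sum.elim_inl, Subtype.mk.injEq] at hxy
            subst hxy; rfl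
          · simp only [g, Sum.elim_inl, Sum.elim_inr, Subtype.mk.injEq] at hxy
            subst hxy
            exact absurd hx (mem_sdiff.1 hy).2
          · simp only [g, Sum.elim_inl, Sum.elim_inr, Subtype.mk.injEq] at hxy
            subst hxy
            exact absurd hy (mem_sdiff.1 hx).2
          · simp only [g, Sum.elim_inr, Subtype.mk.injEq] at hxy
            subst hxy; rfl
        · rintro ⟨a, ha⟩
          by_cases haB : a ∈ B
          · exact ⟨Sum.inl ⟨a, haB⟩, rfl⟩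
          · exact ⟨Sum.inr ⟨a, mem_sdiff.2 ⟨ha, haB⟩⟩, rfl⟩
      refine Sur_equiv (Equiv.ofBijective g hg) ?_ hst
      rintro (x | x) <;> rfl

/-- **greedy packing** for a family of multiplicities -/
theorem Sur_rect {κ : Type} [Fintype κ] {w : κ → ℕ} {T h H : ℕ} (hh : ∀ j, w j ≤ h)
    (hT : ∀ j, w j ≤ T) (hH : 2 * ∑ j, w j ^ 2 + T * h ≤ T * H) : Sur w (Rect T H) := by
  have h1 := Sur_rect_aux (w := w) (T := T) (univ : Finset κ).card univ h H le_rfl
    (fun a _ => hh a) (fun a _ => hT a) hH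
  refine Sur_equiv (Equiv.subtypeUnivEquiv (fun x => mem_univ x)) ?_ h1
  intro i
  rfl

/-- rows in arbitrary position -/
theorem Sur_of_rows {κ : Type} [Fintype κ] {w : κ → ℕ} {T H : ℕ} (h : Sur w (Rect T H))
    {S : Set (ℤ × ℤ)} (hS : ∀ y : ℤ, 0 ≤ y → y < H → ∃ B : Finset ℤ, T ≤ B.card ∧
      ∀ b ∈ B, ((b, y) : ℤ × ℤ) ∈ S) : Sur w S := by
  have h1 : Sur w {p : ℤ × ℤ | 0 ≤ p.1 ∧ p.1 < H ∧ 0 ≤ p.2 ∧ p.2 < T} := by
    refine h.comap 0 1 1 0 0 0 (by norm_num) ?_
    rintro ⟨x, y⟩ ⟨k1, k2, k3, k4⟩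
    exact ⟨(y, x), ⟨k3, k4, k1, k2⟩, by simp⟩
  have h2 : Sur w {p : ℤ × ℤ | ((p.2, p.1) : ℤ × ℤ) ∈ S} := by
    refine Sur_flat0 ?_ h1
    rintro ⟨x, y⟩ ⟨k1, k2, k3, k4⟩
    obtain ⟨B, hB1, hB2⟩ := hS x k1 k2
    refine ⟨k3, B, ?_, fun b hb => hB2 b hb⟩
    simp only at k4 ⊢
    omega
  refine h2.comap 0 1 1 0 0 0 (by norm_num) ?_
  rintro ⟨x, y⟩ hxy
  exact ⟨(y, x), hxy, by simp⟩

end Pool.Agent.U605.ST
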