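import Pool.Agent.U605.ST.Plane
import Pool.Agent.TH760.EN.Asm

/-! `n ≥ 36` general points of one multiplicity `m` and a tail of small multiplicities: the
expected dimension in every degree. -/

namespace Pool.Agent.U605.ST

open Finset Pool.Agent.TH176.Nag Pool.Agent.TH603.Sur Pool.Agent.TH760.EN Pool.Agent.TH641.UM
open Pool.Agent.H932R3 Pool.Agent.TH335.EN

/-- the binomial coefficients as squares -/
theorem eight_choose (k : ℕ) : 8 * (((k + 1).choose 2 : ℕ) : ℝ) + 1 = (2 * (k : ℝ) + 1) ^ 2 := by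
  have h : (((k + 1).choose 2 : ℕ) : ℝ) = k * (k + 1) / 2 := by
    rw [Nat.cast_choose_two]
    push_cast
    ring
  rw [h]
  ring

theorem eight_deg (d : ℕ) : 8 * (((d + 2).choose 2 : ℕ) : ℝ) + 1 = (2 * (d : ℝ) + 3) ^ 2 := by
  have := eight_choose (d + 1)
  rw [this]
  push_cast
  ring

theorem deg_mono {d k : ℕ} (h : d ≤ k) : (d + 2).choose 2 ≤ (k + 2).choose 2 :=
  Nat.choose_le_choose 2 (by omega)

theorem TZ_mono {d k : ℕ} (h : d ≤ k) : TZ d ⊆ TZ k := by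
  rintro p ⟨q1, q2, q3⟩
  refine ⟨q1, q2, q3.trans ?_⟩
  exact_mod_cast h

/-- the degrees with at least `n (m + 1) m / 2` coefficients -/
theorem low_deg {n m d : ℕ} (hn : 36 ≤ n) (hm : 1 ≤ m)
    (h : n * (m + 1).choose 2 ≤ (d + 2).choose 2) :
    -((n : ℝ) / (4 * m)) < √(n : ℝ) * (2 * d + 3) - n * (2 * m + 1) := by
  have hnR : (36 : ℝ) ≤ n := by exact_mod_cast hn
  have hmR : (1 : ℝ) ≤ m := by exact_mod_cast hm
  obtain ⟨s, hs⟩ : ∃ s : ℝ, s = √(n : ℝ) := ⟨_, rfl⟩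
  have hss : s * s = n := by rw [hs]; exact Real.mul_self_sqrt (by linarith)
  have hs6 : 6 ≤ s := by
    rw [hs]
    exact Real.le_sqrt_of_sq_le (by linarith)
  rw [← hs]
  have hR : (n : ℝ) * (((m + 1).choose 2 : ℕ) : ℝ) ≤ (((d + 2).choose 2 : ℕ) : ℝ) := by
    exact_mod_cast h
  have e1 := eight_choose m
  have e2 := eight_deg d
  have h1 : (n : ℝ) * (2 * m + 1) ^ 2 - n + 1 ≤ (2 * (d : ℝ) + 3) ^ 2 := by
    rw [← e1, ← e2]
    linarith
  obtain ⟨δ, hδ⟩ : ∃ δ : ℝ, δ = (n : ℝ) / (4 * m) := ⟨_, rfl⟩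
  have hδm : δ * (4 * m) = n := by
    rw [hδ]
    field_simp
  have hδ0 : 0 < δ := by rw [hδ]; positivity
  rw [← hδ]
  by_contra hcon
  rw [not_lt] at hcon
  have h2 : s * (2 * (d : ℝ) + 3) ≤ n * (2 * m + 1) - δ := by linarith
  have h3 : 0 ≤ s * (2 * (d : ℝ) + 3) := by positivity
  have h4 : (s * (2 * (d : ℝ) + 3)) ^ 2 ≤ (n * (2 * m + 1) - δ) ^ 2 :=
    pow_le_pow_left₀ h3 h2 2
  have h5 : (s * (2 * (d : ℝ) + 3)) ^ 2 = n * (2 * (d : ℝ) + 3) ^ 2 := by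
    rw [mul_pow, sq s, hss]
  have h6 : (n : ℝ) * (n * (2 * m + 1) ^ 2 - n + 1) ≤ n * (2 * (d : ℝ) + 3) ^ 2 :=
    mul_le_mul_of_nonneg_left h1 (by linarith)
  rw [h5] at h4
  have e3 : (n * (2 * (m : ℝ) + 1) - δ) ^ 2 = n * (n * (2 * m + 1) ^ 2) - n * (δ * (4 * m)) -
      2 * n * δ + δ ^ 2 := by ring
  rw [e3, hδm] at h4
  -- `δ ≤ n / 4`
  have h7 : δ ≤ n := by nlinarith
  have h8 : δ ^ 2 ≤ n * δ := by nlinarith
  nlinarith

/-- the degrees in which the main block alone is not exceeded -/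
theorem neg_deg {n m d : ℕ} (hn : 36 ≤ n)
    (h : (d + 2).choose 2 ≤ n * (m + 1).choose 2) :
    √(n : ℝ) * (2 * d + 3) - n * (2 * m + 1) < 0 := by
  have hnR : (36 : ℝ) ≤ n := by exact_mod_cast hn
  obtain ⟨s, hs⟩ : ∃ s : ℝ, s = √(n : ℝ) := ⟨_, rfl⟩
  have hss : s * s = n := by rw [hs]; exact Real.mul_self_sqrt (by linarith)
  have hs6 : 6 ≤ s := by
    rw [hs]
    exact Real.le_sqrt_of_sq_le (by linarith)
  rw [← hs]
  have hR : (((d + 2).choose 2 : ℕ) : ℝ) ≤ (n : ℝ) * (((m + 1).choose 2 : ℕ) : ℝ) := by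
    exact_mod_cast h
  have e1 := eight_choose m
  have e2 := eight_deg d
  have h1 : (2 * (d : ℝ) + 3) ^ 2 ≤ (n : ℝ) * (2 * m + 1) ^ 2 - n + 1 := by
    rw [← e1, ← e2]
    linarith
  by_contra hcon
  rw [not_lt] at hcon
  have h2 : n * (2 * (m : ℝ) + 1) ≤ s * (2 * (d : ℝ) + 3) := by linarith
  have h3 : (n * (2 * (m : ℝ) + 1)) ^ 2 ≤ (s * (2 * (d : ℝ) + 3)) ^ 2 :=
    pow_le_pow_left₀ (by positivity) h2 2
  rw [mul_pow s, sq s, hss] at h3
  have h6 : (n : ℝ) * (2 * (d : ℝ) + 3) ^ 2 ≤ n * (n * (2 * m + 1) ^ 2 - n + 1) :=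
    mul_le_mul_of_nonneg_left h1 (by linarith)
  nlinarith

/-- the degrees in which the tail is not yet exceeded -/
theorem high_deg {n m d W : ℕ} (hn : 36 ≤ n)
    (hW : 2 * (W : ℝ) ≤ (√(n : ℝ) - 5) * m)
    (h : (d + 2).choose 2 ≤ n * (m + 1).choose 2 + W) :
    √(n : ℝ) * (2 * d + 3) - n * (2 * m + 1) < √(n : ℝ) - 5 := by
  have hnR : (36 : ℝ) ≤ n := by exact_mod_cast hn
  have hm0 : (0 : ℝ) ≤ m := Nat.cast_nonneg m
  obtain ⟨s, hs⟩ : ∃ s : ℝ, s = √(n : ℝ) := ⟨_, rfl⟩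
  have hss : s * s = n := by rw [hs]; exact Real.mul_self_sqrt (by linarith)
  have hs6 : 6 ≤ s := by
    rw [hs]
    exact Real.le_sqrt_of_sq_le (by linarith)
  rw [← hs] at hW ⊢
  have hR : (((d + 2).choose 2 : ℕ) : ℝ) ≤ (n : ℝ) * (((m + 1).choose 2 : ℕ) : ℝ) + W := by
    exact_mod_cast h
  have e1 := eight_choose m
  have e2 := eight_deg d
  have h1 : (2 * (d : ℝ) + 3) ^ 2 ≤ (n : ℝ) * (2 * m + 1) ^ 2 - n + 1 + 8 * W := by
    rw [← e1, ← e2]
    linarith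
  by_contra hcon
  rw [not_lt] at hcon
  have h2 : n * (2 * m + 1) + (s - 5) ≤ s * (2 * (d : ℝ) + 3) := by linarith
  have h3 : 0 ≤ (n : ℝ) * (2 * m + 1) + (s - 5) := by
    have : 0 ≤ (n : ℝ) * (2 * m + 1) := by positivity
    linarith
  have h4 : (n * (2 * m + 1) + (s - 5)) ^ 2 ≤ (s * (2 * (d : ℝ) + 3)) ^ 2 :=
    pow_le_pow_left₀ h3 h2 2
  have h5 : (s * (2 * (d : ℝ) + 3)) ^ 2 = n * (2 * (d : ℝ) + 3) ^ 2 := by
    rw [mul_pow, sq s, hss]
  have h6 : (n : ℝ) * (2 * (d : ℝ) + 3) ^ 2 ≤ n * (n * (2 * m + 1) ^ 2 - n + 1 + 8 * W) :=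
    mul_le_mul_of_nonneg_left h1 (by linarith)
  rw [h5] at h4
  have h7 : (n : ℝ) * (8 * W) ≤ n * (4 * ((s - 5) * m)) :=
    mul_le_mul_of_nonneg_left (by linarith) (by linarith)
  have h8 : 0 < (n : ℝ) * (s - 5) := by
    apply mul_pos <;> linarith
  have h9 : 0 ≤ (n : ℝ) * (n - 1) := by
    apply mul_nonneg <;> linarith
  have h10 : 0 ≤ (s - 5) ^ 2 := sq_nonneg _
  nlinarith

theorem exists_ac' {n : ℕ} (hn : 36 ≤ n) : ∃ a c : ℕ, n = 4 * a + c ∧ 8 ≤ a ∧ c ≤ 5 ∧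
    EndE c ∧ HS c := by
  have h3 : HE 3 := Pool.Agent.TH641.EN.HE_three
  rcases (by omega : n % 4 = 0 ∨ n % 4 = 1 ∨ n % 4 = 2 ∨ n % 4 = 3) with h | h | h | h
  · exact ⟨n / 4, 0, by omega, by omega, by omega, endE he0, hs0⟩
  · exact ⟨(n - 5) / 4, 5, by omega, by omega, by omega,
      endE (Pool.Agent.TH938.Q5.he5 he2 h3), Pool.Agent.TH938.Q5.hs5 he2 h3⟩
  · exact ⟨n / 4, 2, by omega, by omega, by omega, endE he2, hs2⟩
  · exact ⟨n / 4, 3, by omega, by omega, by omega, endE h3, hs3_of h3⟩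

section tail
variable {κ : Type} [Fintype κ] {w : κ → ℕ}

theorem cond_vec (n m : ℕ) :
    cond (Sum.elim (fun _ : Fin n => m) w) = n * (m + 1).choose 2 + cond w := by
  rw [cond_elim, cond_const (Fintype.card_fin n) (fun _ => rfl)]

/-- **the degrees in reach of the doubling theorem** -/
theorem dbl {n m d : ℕ} (hn : 36 ≤ n) {T H : ℕ} (hw : Sur w (Rect T H)) (hH : H ≤ 2 * m)
    {ρ : ℝ} (hρ : 0 ≤ ρ)
    (h1 : 4 * ρ * m + 5 < √(n : ℝ) * (2 * d + 3) - n * (2 * m + 1) + 3 * √(n : ℝ))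
    (h2 : 4 * (T + ρ * H) + 5 <
      √(n : ℝ) * (2 * d + 3) - n * (2 * m + 1) + 3 * √(n : ℝ) + 4 * ρ * m)
    (hx2 : √(n : ℝ) * (2 * d + 3) - n * (2 * m + 1) < 3 * √(n : ℝ) - 5) :
    ((d + 2).choose 2 ≤ n * (m + 1).choose 2 + Pool.Agent.TH603.Sur.cond w →
      Emp (Sum.elim (fun _ : Fin n => m) w) (TZ d)) ∧
    (n * (m + 1).choose 2 + Pool.Agent.TH603.Sur.cond w ≤ (d + 2).choose 2 →
      Sur (Sum.elim (fun _ : Fin n => m) w) (TZ d)) := by
  obtain ⟨a, c, hac, ha, hc, hE, hS⟩ := exists_ac' hn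
  have hnR : (36 : ℝ) ≤ n := by exact_mod_cast hn
  have hn4 : (n : ℝ) = 4 * a + c := by rw [hac]; push_cast; ring
  have hcR : (c : ℝ) ≤ 5 := by exact_mod_cast hc
  have hEd : Emp (wt a c (2 * m + 1) m) (TZ d) := by
    refine hE a n m d hac (by omega) ?_
    have e2 : (n : ℝ) * (2 * m + 1) = 2 * (n * m) + n := by ring
    rw [e2] at hx2
    linarith
  have hEd' : Emp (Sum.elim (fun _ : Fin a => 2 * m + 1) (Sum.elim (fun _ : Fin c => m) w)) (TZ d) := by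
    refine Emp_emb (Sum.map id Sum.inl) ?_ ?_ hEd
    · exact Sum.map_injective.2 ⟨Function.injective_id, Sum.inl_injective⟩
    · rintro (i | i) <;> simp [wt]
  have hSd : Sur (Sum.elim (wt a c (2 * m) m) w) (TZ d) := by
    refine Sur_tail hS hac (by omega) hw hH hρ ?_ ?_
    · linarith
    · linarith
  have hSd' : Sur (Sum.elim (fun _ : Fin a => 2 * m) (Sum.elim (fun _ : Fin c => m) w)) (TZ d) := by
    refine Sur_equiv (Equiv.sumAssoc _ _ _) ?_ hSd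
    rintro ((i | i) | i) <;> rfl
  have hD := Pool.Agent.TH763.DB.doubling (N := a) (m := m) (e := Sum.elim (fun _ : Fin c => m) w)
    (by omega) (S := Pool.Agent.TH387.SH.TF d) (fun u hu => by
      have h1 : u ∈ TZ d := by rw [← Pool.Agent.TH387.SH.coe_TF]; exact mem_coe.2 hu
      exact ⟨h1.1, h1.2.1⟩)
    (by rw [Pool.Agent.TH387.SH.coe_TF]; exact hSd') (by rw [Pool.Agent.TH387.SH.coe_TF]; exact hEd')
  rw [Pool.Agent.TH387.SH.coe_TF, Pool.Agent.TH387.SH.card_TF] at hD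
  -- reindexing
  have hcard : Fintype.card ((Fin a × (Fin 2 × Fin 2)) ⊕ Fin c) = n := by
    simp only [Fintype.card_sum, Fintype.card_prod, Fintype.card_fin]
    omega
  let e1 : ((Fin a × (Fin 2 × Fin 2)) ⊕ (Fin c ⊕ κ)) ≃ (Fin n ⊕ κ) :=
    (Equiv.sumAssoc _ _ _).symm.trans (Equiv.sumCongr (Fintype.equivFinOfCardEq hcard) (Equiv.refl κ))
  have he1 : ∀ i, Sum.elim (fun _ : Fin n => m) w (e1 i) =
      Sum.elim (fun _ : Fin a × (Fin 2 × Fin 2) => m) (Sum.elim (fun _ : Fin c => m) w) i := by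
    rintro (i | i | i) <;> rfl
  have hcond : Pool.Agent.TH603.Sur.cond (Sum.elim (fun _ : Fin a × (Fin 2 × Fin 2) => m)
      (Sum.elim (fun _ : Fin c => m) w)) = n * (m + 1).choose 2 + Pool.Agent.TH603.Sur.cond w := by
    rw [cond_equiv e1 he1, cond_vec]
  rw [hcond] at hD
  exact ⟨fun h => Emp_equiv e1 he1 (hD.1 h), fun h => Sur_equiv e1 he1 (hD.2 h)⟩

/-- emptiness for the main block -/
theorem Emp_uni {n m d : ℕ} (hn : 36 ≤ n) (hm : 1 ≤ m)
    (hδ : 5 + (n : ℝ) / (4 * m) ≤ √(n : ℝ))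
    (h : (d + 2).choose 2 ≤ n * (m + 1).choose 2) : Emp (fun _ : Fin n => m) (TZ d) := by
  classical
  have hnR : (36 : ℝ) ≤ n := by exact_mod_cast hn
  -- the first degree beyond
  have hex : ∃ k : ℕ, n * (m + 1).choose 2 < (k + 2).choose 2 := by
    refine ⟨n * (m + 1).choose 2, ?_⟩
    have h1 : (n * (m + 1).choose 2 + 2).choose 2 =
        (n * (m + 1).choose 2 + 1).choose 1 + (n * (m + 1).choose 2 + 1).choose 2 :=
      Nat.choose_succ_succ _ _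
    rw [h1, Nat.choose_one_right]
    omega
  obtain ⟨k, hk⟩ : ∃ k, k = Nat.find hex := ⟨_, rfl⟩
  have hk1 : n * (m + 1).choose 2 < (k + 2).choose 2 := by
    rw [hk]; exact Nat.find_spec hex
  have hkd : d < k := by
    by_contra hcon
    have := deg_mono (not_lt.1 hcon)
    omega
  obtain ⟨k', rfl⟩ := Nat.exists_eq_succ_of_ne_zero (show k ≠ 0 by omega)
  have hk' : (k' + 2).choose 2 ≤ n * (m + 1).choose 2 := by
    have h3 := Nat.find_min hex (m := k') (by rw [← hk]; exact Nat.lt_succ_self k')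
    omega
  have h4 := neg_deg hn hk'
  have h5 := low_deg (d := k' + 1) hn hm hk1.le
  push_cast at h5
  have hw0 : Sur (fun i : Fin 0 => i.elim0) (Rect 0 0) := by
    refine Sur_rows _ 0 ?_
    intro k j hj
    simp at hj
  have h6 := (dbl (d := k') (m := m) (ρ := 0) hn hw0 (Nat.zero_le _) le_rfl
    (by simp only [mul_zero, zero_mul]; linarith)
    (by simp only [Nat.cast_zero, mul_zero, add_zero, zero_mul]; linarith) (by linarith)).1 (by omega)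
  refine (Emp_equiv (Equiv.sumEmpty (Fin n) (Fin 0)) ?_ h6).mono (TZ_mono (by omega))
  rintro (i | i)
  · rfl
  · exact i.elim0

/-- **Emptiness and independence in every degree.** -/
theorem main_ES {n m : ℕ} (hn : 36 ≤ n) (hm : 1 ≤ m) (hδ : 5 + (n : ℝ) / (4 * m) ≤ √(n : ℝ))
    {T H : ℕ} (hw : Sur w (Rect T H))
    (hH : H ≤ 2 * m) {ρ : ℝ} (hρ : 0 ≤ ρ)
    (h1 : 4 * ρ * m + 5 + (n : ℝ) / (4 * m) ≤ 3 * √(n : ℝ))
    (h2 : 4 * (T + ρ * H) + 5 + (n : ℝ) / (4 * m) ≤ 3 * √(n : ℝ) + 4 * ρ * m)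
    (hW : 2 * (Pool.Agent.TH603.Sur.cond w : ℝ) ≤ (√(n : ℝ) - 5) * m) (d : ℕ) :
    ((d + 2).choose 2 ≤ n * (m + 1).choose 2 + Pool.Agent.TH603.Sur.cond w →
      Emp (Sum.elim (fun _ : Fin n => m) w) (TZ d)) ∧
    (n * (m + 1).choose 2 + Pool.Agent.TH603.Sur.cond w ≤ (d + 2).choose 2 →
      Sur (Sum.elim (fun _ : Fin n => m) w) (TZ d)) := by
  have hnR : (36 : ℝ) ≤ n := by exact_mod_cast hn
  have hs6 : 6 ≤ √(n : ℝ) := Real.le_sqrt_of_sq_le (by linarith)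
  constructor
  · intro h
    rcases le_total ((d + 2).choose 2) (n * (m + 1).choose 2) with h3 | h3
    · refine Emp_emb (fun i : Fin n => Sum.inl i) Sum.inl_injective (fun i => by simp)
        (Emp_uni hn hm hδ h3)
    · have h4 := low_deg hn hm h3
      have h5 := high_deg hn hW h
      exact (dbl hn hw hH hρ (by linarith) (by linarith) (by linarith)).1 h
  · intro h
    -- the smallest such degree
    classical
    have hex : ∃ k : ℕ, n * (m + 1).choose 2 + Pool.Agent.TH603.Sur.cond w ≤ (k + 2).choose 2 := ⟨d, h⟩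
    obtain ⟨k, hk⟩ : ∃ k, k = Nat.find hex := ⟨_, rfl⟩
    have hk1 : n * (m + 1).choose 2 + Pool.Agent.TH603.Sur.cond w ≤ (k + 2).choose 2 := by
      rw [hk]; exact Nat.find_spec hex
    have hkd : k ≤ d := by rw [hk]; exact Nat.find_min' hex h
    have hk0 : k ≠ 0 := by
      rintro rfl
      have h3 : (0 + 2).choose 2 = 1 := rfl
      have h4 : 1 ≤ (m + 1).choose 2 := Nat.choose_pos (by omega)
      have h5 : 36 * 1 ≤ n * (m + 1).choose 2 := Nat.mul_le_mul hn h4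
      omega
    obtain ⟨k', rfl⟩ := Nat.exists_eq_succ_of_ne_zero hk0
    have hk' : (k' + 2).choose 2 ≤ n * (m + 1).choose 2 + Pool.Agent.TH603.Sur.cond w := by
      have h3 := Nat.find_min hex (m := k') (by rw [← hk]; exact Nat.lt_succ_self k')
      omega
    have h4 := high_deg hn hW hk'
    have h5 := low_deg (d := k' + 1) hn hm ((Nat.le_add_right _ _).trans hk1)
    have h6 : √(n : ℝ) * (2 * ((k' + 1 : ℕ) : ℝ) + 3) - n * (2 * m + 1) < 3 * √(n : ℝ) - 5 := by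
      push_cast
      linarith
    have hS := (dbl (d := k' + 1) hn hw hH hρ (by linarith) (by linarith) h6).2 hk1
    exact hS.mono (TZ_mono hkd)

end tail

end Pool.Agent.U605.ST
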