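import Pool.Agent.U605.ST.Rect

/-! Independence in the plane for `a` points of multiplicity `2 m`, `c` points of multiplicity `m` and
a tail of small multiplicities which fits into a thin rectangle. -/

namespace Pool.Agent.U605.ST

open Finset Pool.Agent.TH176.Nag Pool.Agent.TH603.Sur Pool.Agent.TH603.Cut Pool.Agent.TH181.NagM
open Pool.Agent.TH648.SH Pool.Agent.TH760.EN Pool.Agent.TH335.EN Filter Topology

/-- the lattice points of the right triangle of slope `r ^ 2` -/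
def RT (r L : ℝ) : Set (ℤ × ℤ) := {p | 0 ≤ p.1 ∧ 0 ≤ p.2 ∧ (p.1 : ℝ) + 1 + r ^ 2 * (p.2 + 1) ≤ L}

/-- the strip beyond the main triangle -/
def StripU (a c m H : ℕ) (r L : ℝ) : Set (ℤ × ℤ) := {p | 0 ≤ p.1 ∧ 0 ≤ p.2 ∧ p.2 < (H : ℤ) ∧
  2 * (4 * (a : ℤ) + c) * m + c < 4 * p.1 + (4 * (a : ℤ) + c) * p.2 + 4 ∧
  (p.1 : ℝ) + 1 + r ^ 2 * (p.2 + 1) ≤ L}

variable {κ : Type} [Fintype κ] {w : κ → ℕ}

theorem Sur_strip (a c m : ℕ) {T H : ℕ} (hw : Sur w (Rect T H)) (hH : H ≤ 2 * m) {r L : ℝ}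
    (hs : a + (c : ℝ) / 4 ≤ r ^ 2)
    (hL : ((4 * a + c : ℝ) * m + 2 * a + c) / 2 + T + (r ^ 2 - (a + (c : ℝ) / 4)) * H ≤ L) :
    Sur w (StripU a c m H r L) := by
  refine Sur_of_rows hw ?_
  intro y hy0 hyH
  have hy0' : (0 : ℝ) ≤ y := by exact_mod_cast hy0
  have hyH' : (y : ℝ) + 1 ≤ H := by exact_mod_cast hyH
  have hHm : (H : ℝ) ≤ 2 * m := by exact_mod_cast hH
  obtain ⟨α, hα⟩ : ∃ α : ℝ, α = (2 * (4 * a + c : ℝ) * m + c - (4 * a + c) * y - 4) / 4 := ⟨_, rfl⟩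
  obtain ⟨β, hβ⟩ : ∃ β : ℝ, β = L - 1 - r ^ 2 * (y + 1) := ⟨_, rfl⟩
  have hn0 : (0 : ℝ) ≤ 4 * a + c := by positivity
  have hαm : -1 ≤ α := by
    have h1 : (4 * a + c : ℝ) * y ≤ (4 * a + c : ℝ) * (2 * m) :=
      mul_le_mul_of_nonneg_left (by linarith) hn0
    have h2 : (0 : ℝ) ≤ c := by positivity
    rw [hα]
    linarith
  have hαβ : α + T ≤ β := by
    have h1 : (r ^ 2 - (a + (c : ℝ) / 4)) * (y + 1) ≤ (r ^ 2 - (a + (c : ℝ) / 4)) * H :=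
      mul_le_mul_of_nonneg_left hyH' (by linarith)
    rw [hα, hβ]
    linarith
  have f1 := Int.floor_le α
  have f2 := Int.lt_floor_add_one α
  have g1 := Int.floor_le β
  have g2 := Int.lt_floor_add_one β
  refine ⟨Finset.Ioc ⌊α⌋ ⌊β⌋, ?_, ?_⟩
  · rw [Int.card_Ioc]
    have h1 : (⌊α⌋ : ℝ) + T < (⌊β⌋ : ℝ) + 1 := by linarith
    have h2 : ⌊α⌋ + (T : ℤ) < ⌊β⌋ + 1 := by exact_mod_cast h1
    omega
  · intro b hb
    rw [Finset.mem_Ioc] at hb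
    have h1 : (⌊α⌋ : ℝ) + 1 ≤ b := by exact_mod_cast hb.1
    have h2 : (b : ℝ) ≤ ⌊β⌋ := by exact_mod_cast hb.2
    have h3 : (-1 : ℝ) < b := by linarith
    have h4 : (-1 : ℤ) < b := by exact_mod_cast h3
    refine ⟨by simp only; omega, hy0, hyH, ?_, ?_⟩
    · have h5 : 2 * (4 * (a : ℝ) + c) * m + c < 4 * b + (4 * (a : ℝ) + c) * y + 4 := by
        have : α < b := by linarith
        rw [hα] at this
        linarith
      exact_mod_cast h5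
    · simp only
      linarith

theorem Sur_RT {c : ℕ} (h : HS c) (a m : ℕ) {T H : ℕ} (hw : Sur w (Rect T H)) (hH : H ≤ 2 * m)
    {r L : ℝ} (hs : a + (c : ℝ) / 4 ≤ r ^ 2)
    (hL1 : ((4 * a + c : ℝ) * m + 2 * a + c) / 2 + 2 * m * (r ^ 2 - (a + (c : ℝ) / 4)) ≤ L)
    (hL2 : ((4 * a + c : ℝ) * m + 2 * a + c) / 2 + T + (r ^ 2 - (a + (c : ℝ) / 4)) * H ≤ L) :
    Sur (Sum.elim (wt a c (2 * m) m) w) (RT r L) := by
  have h1 := Sur_tri h a m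
  have h2 := Sur_strip a c m hw hH hs hL2
  refine (Sur_cut (fun p hp => ⟨hp.1, hp.2.1⟩) (fun p hp => ⟨hp.1, hp.2.1⟩) 4 (4 * a + c) ?_ h1 h2).mono ?_
  · rintro p ⟨k1, k2, k3, k4⟩ p' ⟨k1', k2', k3', k4', k5'⟩
    linarith
  · rintro p (⟨k1, k2, k3, k4⟩ | ⟨k1, k2, k3, k4, k5⟩)
    · refine ⟨k1, k2, ?_⟩
      have k3' : (p.2 : ℝ) + 1 ≤ 2 * m := by exact_mod_cast k3
      have k4' : 4 * (p.1 : ℝ) + (4 * a + c) * p.2 + 4 ≤ 2 * (4 * a + c) * m + c := by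
        exact_mod_cast k4
      have k5 : (r ^ 2 - (a + (c : ℝ) / 4)) * (p.2 + 1) ≤ (r ^ 2 - (a + (c : ℝ) / 4)) * (2 * m) :=
        mul_le_mul_of_nonneg_left k3' (by linarith)
      linarith
    · exact ⟨k1, k2, k5⟩

theorem Sur_regO_tail {c : ℕ} (h : HS c) (a m : ℕ) {T H : ℕ} (hw : Sur w (Rect T H))
    (hH : H ≤ 2 * m) {r L α B : ℝ} (hs : a + (c : ℝ) / 4 ≤ r ^ 2)
    (hL1 : ((4 * a + c : ℝ) * m + 2 * a + c) / 2 + 2 * m * (r ^ 2 - (a + (c : ℝ) / 4)) ≤ L)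
    (hL2 : ((4 * a + c : ℝ) * m + 2 * a + c) / 2 + T + (r ^ 2 - (a + (c : ℝ) / 4)) * H ≤ L)
    (hB : L < B) :
    Sur (Sum.elim (wt a c (2 * m) m) w) (RegO α (α + B) 0 (r ^ 2)) := by
  refine (Sur_RT h a m hw hH hs hL1 hL2).shift (-(⌊α⌋ + 1)) (-1) ?_
  rintro ⟨x, y⟩ ⟨k1, k2, k3⟩
  simp only at k1 k2 k3
  have k1' : (0 : ℝ) ≤ x := by exact_mod_cast k1
  have k2' : (0 : ℝ) ≤ y := by exact_mod_cast k2
  have f1 := Int.floor_le α
  have f2 := Int.lt_floor_add_one α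
  refine ⟨by simp only; omega, ?_, ?_⟩
  · simp only
    push_cast
    linarith
  · simp only
    push_cast
    linarith

theorem Sur_plane_tail {c : ℕ} (h : HS c) (a m d : ℕ) {T H : ℕ} (hw : Sur w (Rect T H))
    (hH : H ≤ 2 * m) {r : ℝ} (hr : 3 ≤ r) (hirr : Irrational r) (hs : a + (c : ℝ) / 4 ≤ r ^ 2)
    (hL1 : ((4 * a + c : ℝ) * m + 2 * a + c) / 2 + 2 * m * (r ^ 2 - (a + (c : ℝ) / 4)) <
      r * (d + 3))
    (hL2 : ((4 * a + c : ℝ) * m + 2 * a + c) / 2 + T + (r ^ 2 - (a + (c : ℝ) / 4)) * H <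
      r * (d + 3)) :
    Sur (Sum.elim (wt a c (2 * m) m) w) (TZ d) := by
  have hr0 : 0 < r := by linarith
  obtain ⟨L, hLa, hLb⟩ := exists_between (max_lt hL1 hL2)
  have hLa1 := (le_max_left _ _).trans hLa.le
  have hLa2 := (le_max_right _ _).trans hLa.le
  have hL0 : 0 ≤ L := by
    refine le_trans ?_ hLa1
    have h1 : 0 ≤ r ^ 2 - (a + (c : ℝ) / 4) := by linarith
    positivity
  have hc0 : 0 ≤ L / r := by positivity
  have hcd : L / r < d + 3 := by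
    rw [div_lt_iff₀ hr0]
    linarith
  have hSP : SP (Sum.elim (wt a c (2 * m) m) w) (L / r) 0 (r ^ 2) := by
    refine ⟨by positivity, fun E hE α => ?_⟩
    rw [zero_add, Real.sqrt_sq hr0.le]
    exact Sur_regO_tail h a m hw hH hs hLa1 hLa2 (by rwa [div_lt_iff₀ hr0] at hE)
  obtain ⟨k, τ, hk, h0, h1⟩ := exists_tau r
  have h2 := (Mv_tau hr k hk).closed (SP_closed hc0) hSP
  have h3 := h2.2 ((d : ℝ) + 3) hcd (-(((d : ℝ) + 3) * (1 + τ)))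
  have e1 : 3 * (1 + τ) + 3 * (2 - τ) = (3 : ℝ) ^ 2 := by ring
  rw [e1, Real.sqrt_sq (by norm_num)] at h3
  have e2 : -(((d : ℝ) + 3) * (1 + τ)) + ((d : ℝ) + 3) * 3 = ((d : ℝ) + 3) * (2 - τ) := by ring
  rw [e2] at h3
  refine Sur_keyO h0 h1 ?_ h3
  intro hq
  obtain ⟨q, hq⟩ := hq
  apply hirr
  refine ⟨(k + 3 * q) / 3, ?_⟩
  push_cast
  rw [hq]
  linarith

/-- **independence for the main block and the tail** -/
theorem Sur_tail {c : ℕ} (h : HS c) {a n m d : ℕ} (hn : n = 4 * a + c) (hn36 : 36 ≤ n)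
    {T H : ℕ} (hw : Sur w (Rect T H)) (hH : H ≤ 2 * m) {ρ : ℝ} (hρ : 0 ≤ ρ)
    (h1 : 4 * ρ * m < √(n : ℝ) * (2 * d + 6) - n * (2 * m + 1) - c)
    (h2 : 4 * (T + ρ * H) < √(n : ℝ) * (2 * d + 6) - n * (2 * m + 1) - c + 4 * ρ * m) :
    Sur (Sum.elim (wt a c (2 * m) m) w) (TZ d) := by
  have hn' : (n : ℝ) = 4 * a + c := by rw [hn]; push_cast; ring
  have hn36' : (36 : ℝ) ≤ n := by exact_mod_cast hn36
  obtain ⟨s, hs⟩ : ∃ s : ℝ, s = √(n : ℝ) := ⟨_, rfl⟩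
  have hss : s ^ 2 = n := by rw [hs]; exact Real.sq_sqrt (by linarith)
  have hs6 : 6 ≤ s := by
    rw [hs]
    exact Real.le_sqrt_of_sq_le (by linarith)
  rw [← hs] at h1 h2
  have hs0 : 0 < s := by linarith
  set r₀ : ℝ := √(n / 4 + ρ) with hr₀
  have hr₀2 : r₀ ^ 2 = n / 4 + ρ := Real.sq_sqrt (by linarith)
  have hr₀s : s / 2 ≤ r₀ := by
    rw [hr₀]
    apply Real.le_sqrt_of_sq_le
    rw [div_pow, hss]
    linarith
  have hr₀3 : 3 ≤ r₀ := by linarith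
  have hm0 : (0 : ℝ) ≤ m := Nat.cast_nonneg m
  -- the gain of the slope
  have hup : r₀ ≤ s / 2 + ρ / s := by
    rw [hr₀]
    apply Real.sqrt_le_iff.2
    refine ⟨by positivity, ?_⟩
    have e : (s / 2 + ρ / s) ^ 2 = s ^ 2 / 4 + ρ + (ρ / s) ^ 2 := by
      field_simp
      ring
    rw [e, hss]
    have := sq_nonneg (ρ / s)
    linarith
  have hgain : ρ * m ≤ (r₀ - s / 2) * (d + 3) := by
    have hsum : 0 < r₀ + s / 2 := by linarith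
    have e1 : (r₀ - s / 2) * (r₀ + s / 2) = ρ := by
      have : (r₀ - s / 2) * (r₀ + s / 2) = r₀ ^ 2 - s ^ 2 / 4 := by ring
      rw [this, hr₀2, hss]
      ring
    have h3 : m * (r₀ + s / 2) ≤ d + 3 := by
      have h4 : m * (r₀ + s / 2) ≤ m * (s + ρ / s) := mul_le_mul_of_nonneg_left (by linarith) hm0
      have h5 : s * (m * (s + ρ / s)) = n * m + ρ * m := by
        rw [← hss]
        field_simp
      have h6 : s * (m * (s + ρ / s)) ≤ s * (d + 3) := by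
        rw [h5]
        have h7 : (0 : ℝ) ≤ ρ * m := by positivity
        have h8 : (0 : ℝ) ≤ c := by positivity
        linarith
      exact h4.trans (le_of_mul_le_mul_left h6 hs0)
    have h9 : (r₀ - s / 2) * (m * (r₀ + s / 2)) ≤ (r₀ - s / 2) * (d + 3) :=
      mul_le_mul_of_nonneg_left h3 (by linarith)
    have e2 : (r₀ - s / 2) * (m * (r₀ + s / 2)) = ρ * m := by
      rw [← e1]; ring
    linarith
  -- the two strict inequalities at `r₀`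
  have k1 : ((4 * a + c : ℝ) * m + 2 * a + c) / 2 + 2 * m * (r₀ ^ 2 - (a + (c : ℝ) / 4)) <
      r₀ * (d + 3) := by
    rw [hr₀2, hn']
    rw [hn'] at h1
    linarith
  have k2 : ((4 * a + c : ℝ) * m + 2 * a + c) / 2 + T + (r₀ ^ 2 - (a + (c : ℝ) / 4)) * H <
      r₀ * (d + 3) := by
    rw [hr₀2, hn']
    rw [hn'] at h2
    linarith
  have hc1 : ∀ᶠ r in 𝓝 r₀, ((4 * a + c : ℝ) * m + 2 * a + c) / 2 +
      2 * m * (r ^ 2 - (a + (c : ℝ) / 4)) < r * (d + 3) := by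
    have h3 : Filter.Tendsto (fun r : ℝ => r * ((d : ℝ) + 3) -
      (((4 * a + c : ℝ) * m + 2 * a + c) / 2 + 2 * m * (r ^ 2 - (a + (c : ℝ) / 4)))) (𝓝 r₀)
      (𝓝 (r₀ * ((d : ℝ) + 3) -
        (((4 * a + c : ℝ) * m + 2 * a + c) / 2 + 2 * m * (r₀ ^ 2 - (a + (c : ℝ) / 4))))) := by
      apply Continuous.tendsto
      fun_prop
    filter_upwards [h3.eventually (Ioi_mem_nhds (sub_pos.2 k1))] with r hr
    exact sub_pos.1 hr
  have hc2 : ∀ᶠ r in 𝓝 r₀, ((4 * a + c : ℝ) * m + 2 * a + c) / 2 + T +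
      (r ^ 2 - (a + (c : ℝ) / 4)) * H < r * (d + 3) := by
    have h3 : Filter.Tendsto (fun r : ℝ => r * ((d : ℝ) + 3) -
      (((4 * a + c : ℝ) * m + 2 * a + c) / 2 + T + (r ^ 2 - (a + (c : ℝ) / 4)) * H)) (𝓝 r₀)
      (𝓝 (r₀ * ((d : ℝ) + 3) -
        (((4 * a + c : ℝ) * m + 2 * a + c) / 2 + T + (r₀ ^ 2 - (a + (c : ℝ) / 4)) * H))) := by
      apply Continuous.tendsto
      fun_prop
    filter_upwards [h3.eventually (Ioi_mem_nhds (sub_pos.2 k2))] with r hr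
    exact sub_pos.1 hr
  obtain ⟨ε, hε, hball⟩ := Metric.eventually_nhds_iff.1 (hc1.and hc2)
  obtain ⟨r, hirr, hr1, hr2⟩ := exists_irrational_btwn (show r₀ < r₀ + ε by linarith)
  obtain ⟨q1, q2⟩ := hball (y := r) (by rw [Real.dist_eq, abs_of_pos (by linarith)]; linarith)
  refine Sur_plane_tail h a m d hw hH (by linarith) hirr ?_ q1 q2
  have h3 : r₀ ^ 2 ≤ r ^ 2 := pow_le_pow_left₀ (by linarith) hr1.le 2
  rw [hr₀2, hn'] at h3
  linarith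

end Pool.Agent.U605.ST
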